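import Mathlib

set_option autoImplicit false

/-!
# Project TP (MP_505b57_nt): postcritically finite polynomials of degree `d < p`

Statements of the jobs.  `P_d(K) ∩ PCF` is finite for every finite extension `K` of `ℚ_p`, `p > d`.
-/

namespace Pool.Agent.Y19.TP

open Polynomial Function
open scoped Classical

/-- The integers `1, ..., d` are units. -/
def Tame (U : Type) [NormedField U] (d : ℕ) : Prop := ∀ m : ℕ, 1 ≤ m → m ≤ d → ‖(m : U)‖ = 1

/-- Among any `M + 1` elements of `A` there are two at distance at most `ε`. -/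
def Pig {U : Type} [NormedField U] (A : Subring U) (ε : ℝ) (M : ℕ) : Prop :=
  ∀ g : Fin (M + 1) → U, (∀ i, g i ∈ A) → ∃ i j, i ≠ j ∧ ‖g i - g j‖ ≤ ε

/-- All critical points of `f` have finite forward orbit. -/
def IsPCF {K : Type} [Field K] (f : K[X]) : Prop :=
  ∀ z : K, (derivative f).eval z = 0 →
    (Set.range fun n : ℕ => (fun w : K => f.eval w)^[n] z).Finite

/-- `f` and `g` are conjugate by an affine map. -/
def AffConj {K : Type} [Field K] (f g : K[X]) : Prop :=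
  ∃ a b : K, a ≠ 0 ∧ f.comp (C a * X + C b) = C a * g + C b

/-- Job CNT (numbers of roots and critical points in balls). -/
def CNT : Prop := ∀ (U : Type) [NormedField U] [IsUltrametricDist U] [IsAlgClosed U]
  (d : ℕ), 1 ≤ d → Tame U d → ∀ f : U[X], f.natDegree = d → ∀ (w : U) (r : ℝ), 0 < r →
  ((∃ z : U, f.eval z = 0 ∧ ‖z - w‖ ≤ r) →
    (Multiset.filter (fun z : U => ‖z - w‖ ≤ r) (derivative f).roots).card + 1 =
      (Multiset.filter (fun z : U => ‖z - w‖ ≤ r) f.roots).card) ∧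
  ((∃ z : U, f.eval z = 0 ∧ ‖z - w‖ < r) →
    (Multiset.filter (fun z : U => ‖z - w‖ < r) (derivative f).roots).card + 1 =
      (Multiset.filter (fun z : U => ‖z - w‖ < r) f.roots).card)

/-- Job ROLLE (tame Rolle theorem), to be deduced from `CNT`. -/
def ROLLE : Prop := ∀ (U : Type) [NormedField U] [IsUltrametricDist U] [IsAlgClosed U] [CharZero U]
  (d : ℕ), 1 ≤ d → Tame U d → ∀ f : U[X], f.natDegree = d → ∀ w x : U, w ≠ x →
  f.eval w = 0 → f.eval x = 0 →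
  ∃ c : U, (derivative f).eval c = 0 ∧ ‖c - w‖ ≤ ‖x - w‖ ∧
    ∀ z : U, f.eval z = 0 → ‖x - w‖ ≤ ‖c - z‖

/-- Job PER (bounded periods). -/
def PER : Prop := ∀ (p : ℕ) [Fact p.Prime] (U : Type) [NormedField U] [IsUltrametricDist U]
  [CharZero U], ‖(p : U)‖ < 1 → ∀ (A : Subring U), (∀ a ∈ A, ‖a‖ ≤ 1) →
  ∀ (ε : ℝ), ε < ‖(p : U)‖ → ∀ M : ℕ, Pig A ε M →
  ∀ f : U[X], (∀ i, f.coeff i ∈ A) → ∀ x ∈ A, x ∈ periodicPts (fun z : U => f.eval z) →
    (fun z : U => f.eval z)^[M.factorial * M.factorial] x = x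

/-- Job DISC (no other preimages near periodic points), to be deduced from `ROLLE`. -/
def DISC : Prop := ∀ (U : Type) [NormedField U] [IsUltrametricDist U] [IsAlgClosed U] [CharZero U]
  (d : ℕ), 2 ≤ d → Tame U d → ∀ f : U[X], f.Monic → f.natDegree = d → (∀ i, ‖f.coeff i‖ ≤ 1) →
  IsPCF f → ∀ w : U, ‖w‖ ≤ 1 → w ∈ periodicPts (fun z : U => f.eval z) →
  ∀ x : U, ‖x - w‖ < 1 → f.eval x = f.eval w → x = w

/-- Job TAIL (bounded tails), to be deduced from `DISC`. -/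
def TAIL : Prop := ∀ (U : Type) [NormedField U] [IsUltrametricDist U] [IsAlgClosed U] [CharZero U]
  (d : ℕ), 2 ≤ d → Tame U d → ∀ f : U[X], f.Monic → f.natDegree = d →
  ∀ (A : Subring U), (∀ a ∈ A, ‖a‖ ≤ 1) → (∀ i, f.coeff i ∈ A) →
  (∀ c : U, (derivative f).eval c = 0 → c ∈ A) → IsPCF f →
  ∀ (ε : ℝ), ε < 1 → ∀ M : ℕ, Pig A ε M → ∀ c : U, (derivative f).eval c = 0 →
    (fun z : U => f.eval z)^[M] c ∈ periodicPts (fun z : U => f.eval z)

/-- Job INT (integrality), to be deduced from `ROLLE`. -/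
def INT : Prop := ∀ (U : Type) [NormedField U] [IsUltrametricDist U] [IsAlgClosed U] [CharZero U]
  (d : ℕ), 2 ≤ d → Tame U d → ∀ f : U[X], f.Monic → f.natDegree = d → f.coeff (d - 1) = 0 →
  IsPCF f → (∀ i, ‖f.coeff i‖ ≤ 1) ∧ ∀ c : U, (derivative f).eval c = 0 → ‖c‖ ≤ 1

/-- Job NOETH (bounded affine varieties are finite). -/
def NOETH : Prop := ∀ (σ : Type) [Finite σ] (U : Type) [NormedField U] [IsAlgClosed U],
  (∀ C : ℝ, ∃ y : U, C < ‖y‖) → ∀ (S : Set (MvPolynomial σ U)) (C : ℝ),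
  (∀ x : σ → U, (∀ q ∈ S, MvPolynomial.eval x q = 0) → ∀ i, ‖x i‖ ≤ C) →
  {x : σ → U | ∀ q ∈ S, MvPolynomial.eval x q = 0}.Finite

/-- Job PIG (pigeonhole in the integers of a finite extension of `ℚ_p`). -/
def PIG : Prop := ∀ (p : ℕ) [Fact p.Prime] (L : IntermediateField ℚ_[p] (PadicAlgCl p))
  (n k : ℕ), FiniteDimensional ℚ_[p] L → Module.finrank ℚ_[p] L ≤ n →
  ∀ g : Fin (p ^ (n * k) + 1) → PadicAlgCl p, (∀ i, g i ∈ L ∧ ‖g i‖ ≤ 1) →
    ∃ i j, i ≠ j ∧ ‖g i - g j‖ ≤ ‖(p : PadicAlgCl p)‖ ^ k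

/-- Job FLD (field of definition of bounded degree). -/
def FLD : Prop := ∀ (F E : Type) [Field F] [Field E] [Algebra F E] (n d : ℕ), 2 ≤ d →
  ∀ (K : IntermediateField F E), FiniteDimensional F K → Module.finrank F K ≤ n →
  ∀ f : E[X], f.Monic → f.natDegree = d → derivative f ≠ 0 → (∀ i, f.coeff i ^ (d - 1) ∈ K) →
  ∃ L : IntermediateField F E, K ≤ L ∧ FiniteDimensional F L ∧
    Module.finrank F L ≤ n * (d ^ d * d ^ d) ∧ (∀ i, f.coeff i ∈ L) ∧
    (∀ c : E, (derivative f).eval c = 0 → c ∈ L)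

/-- Job NORM, first part: monic centred representatives. -/
def NORM : Prop := ∀ (U : Type) [Field U] [IsAlgClosed U] [CharZero U] (d : ℕ), 2 ≤ d →
  ∀ f : U[X], f.natDegree = d →
    ∃ g : U[X], AffConj f g ∧ g.Monic ∧ g.natDegree = d ∧ g.coeff (d - 1) = 0

/-- Job NORM, second part: the representatives are unique up to roots of unity. -/
def RIG : Prop := ∀ (U : Type) [Field U] [CharZero U] (d : ℕ), 2 ≤ d →
  ∀ f g : U[X], f.Monic → f.natDegree = d → f.coeff (d - 1) = 0 →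
    g.Monic → g.natDegree = d → g.coeff (d - 1) = 0 → AffConj f g →
    ∀ i, f.coeff i ^ (d - 1) = g.coeff i ^ (d - 1)

/-- Job VAR (the postcritically finite polynomials with given tail and period), from `NOETH` and
`INT`. -/
def VAR : Prop := ∀ (U : Type) [NormedField U] [IsUltrametricDist U] [IsAlgClosed U] [CharZero U]
  (d : ℕ), 2 ≤ d → Tame U d → (∀ C : ℝ, ∃ y : U, C < ‖y‖) → ∀ (T N : ℕ), 1 ≤ N →
  {f : U[X] | f.Monic ∧ f.natDegree = d ∧ f.coeff (d - 1) = 0 ∧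
    ∀ c : U, (derivative f).eval c = 0 →
      (fun z : U => f.eval z)^[T + N] c = (fun z : U => f.eval z)^[T] c}.Finite

end Pool.Agent.Y19.TP
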