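import Pool.Agent.Y19.TP.Stm5
import Pool.Agent.Y665.TP.INFA

set_option autoImplicit false

namespace Pool.Agent.Y19.TP

open Polynomial Function
open Pool.Agent.Y665.TP

namespace Algn

section general

variable {K : Type} [Field K] {n k : ℕ}

theorem famn_eval (v z : K) : (famn K n k v).eval z = v * ((fam K k 1).eval z) ^ n := by
  unfold famn
  rw [eval_mul, eval_C, eval_pow]

theorem famn_deriv (v z : K) : (derivative (famn K n k v)).eval z =
    v * ((n : K) * ((fam K k 1).eval z) ^ (n - 1) * (derivative (fam K k 1)).eval z) := by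
  unfold famn
  rw [derivative_mul, derivative_C, zero_mul, zero_add, derivative_pow]
  simp only [eval_mul, eval_C, eval_pow]

theorem famn_natDegree [CharZero K] (hk : 3 ≤ k) {v : K} (hv : v ≠ 0) :
    (famn K n k v).natDegree = n * k := by
  unfold famn
  rw [natDegree_C_mul hv, natDegree_pow, fam_natDegree hk one_ne_zero]

theorem critn [CharZero K] (hk : 3 ≤ k) (hn : n ≠ 0) {v : K} (hv : v ≠ 0) {z : K}
    (h : (derivative (famn K n k v)).eval z = 0) :
    z = 0 ∨ z = 1 ∨ (famn K n k v).eval z = 0 := by
  rw [famn_deriv] at h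
  rcases mul_eq_zero.1 h with h1 | h1
  · exact absurd h1 hv
  · rcases mul_eq_zero.1 h1 with h2 | h2
    · rcases mul_eq_zero.1 h2 with h3 | h3
      · exact absurd h3 (Nat.cast_ne_zero.2 hn)
      · refine Or.inr (Or.inr ?_)
        by_cases hz : (fam K k 1).eval z = 0
        · rw [famn_eval, hz, zero_pow hn, mul_zero]
        · exact absurd h3 (pow_ne_zero _ hz)
    · rcases crit hk one_ne_zero h2 with h3 | h3
      · exact Or.inl h3
      · exact Or.inr (Or.inl h3)

theorem critn_zero (hk : 3 ≤ k) (v : K) : (derivative (famn K n k v)).eval 0 = 0 := by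
  rw [famn_deriv, crit_zero hk, mul_zero, mul_zero]

theorem critn_one (hk : 3 ≤ k) (v : K) : (derivative (famn K n k v)).eval 1 = 0 := by
  rw [famn_deriv, crit_one hk, mul_zero, mul_zero]

theorem evaln_zero (hk : 3 ≤ k) (hn : n ≠ 0) (v : K) : (famn K n k v).eval 0 = 0 := by
  rw [famn_eval, eval_at_zero hk, zero_pow hn, mul_zero]

theorem evaln_one (v : K) : (famn K n k v).eval 1 = v := by
  rw [famn_eval, eval_at_one, one_pow, mul_one]

theorem pcfn [CharZero K] (hk : 3 ≤ k) (hn : n ≠ 0) {v : K} (hv : v ≠ 0) {N : ℕ}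
    (h : (fun z : K => (famn K n k v).eval z)^[N + 1] v = 0) : IsPCF (famn K n k v) := by
  intro z hz
  have h0 : ∀ j, (fun w : K => (famn K n k v).eval w)^[j] 0 = 0 := by
    intro j
    induction j with
    | zero => rfl
    | succ j ih => rw [Function.iterate_succ_apply', ih]; exact evaln_zero hk hn v
  rcases critn hk hn hv hz with rfl | rfl | hz0
  · refine (Set.finite_singleton (0 : K)).subset ?_
    rintro _ ⟨j, rfl⟩
    exact h0 j
  · have h1 : ∀ j, (fun w : K => (famn K n k v).eval w)^[j + 1] 1 =
        (fun w : K => (famn K n k v).eval w)^[j] v := by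
      intro j
      rw [Function.iterate_succ_apply]
      congr 1
      exact evaln_one v
    have h2 : ∀ j, (fun w : K => (famn K n k v).eval w)^[j + (N + 1)] v = 0 := by
      intro j
      rw [Function.iterate_add_apply, h, h0]
    classical
    refine (((Finset.range (N + 3)).image
      (fun j => (fun w : K => (famn K n k v).eval w)^[j] 1)).finite_toSet).subset ?_
    rintro _ ⟨j, rfl⟩
    rw [Finset.mem_coe, Finset.mem_image]
    by_cases hj : j < N + 3
    · exact ⟨j, Finset.mem_range.2 hj, rfl⟩
    · refine ⟨N + 2, Finset.mem_range.2 (by omega), ?_⟩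
      show (fun w : K => (famn K n k v).eval w)^[N + 1 + 1] 1 = _
      rw [h1, h]
      obtain ⟨i, rfl⟩ : ∃ i, j = i + (N + 1) + 1 := ⟨j - (N + 2), by omega⟩
      show _ = (fun w : K => (famn K n k v).eval w)^[i + (N + 1) + 1] 1
      rw [h1, h2]
  · refine ((Set.finite_singleton (0 : K)).insert z).subset ?_
    rintro _ ⟨j, rfl⟩
    rcases j with _ | j
    · exact Set.mem_insert _ _
    · refine Set.mem_insert_of_mem _ ?_
      show (fun w : K => (famn K n k v).eval w)^[j + 1] z ∈ _
      rw [Function.iterate_succ_apply]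
      show (fun w : K => (famn K n k v).eval w)^[j] ((famn K n k v).eval z) ∈ _
      rw [hz0, h0]
      exact Set.mem_singleton _

theorem distinctn [CharZero K] (hk : 3 ≤ k) (hn : n ≠ 0) {v v' : K} (hv : v ≠ 0) (hv1 : v ≠ 1)
    (hv' : v' ≠ 0) (h : AffConj (famn K n k v) (famn K n k v')) : v = v' := by
  obtain ⟨a, b, ha, h⟩ := h
  have he : ∀ z, (famn K n k v).eval (a * z + b) = a * (famn K n k v').eval z + b := by
    intro z
    have := congrArg (Polynomial.eval z) h
    simpa only [eval_comp, eval_add, eval_mul, eval_C, eval_X] using this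
  have hder : ∀ z, (derivative (famn K n k v)).eval (a * z + b) =
      (derivative (famn K n k v')).eval z := by
    intro z
    have h1 := congrArg (fun f => Polynomial.eval z (derivative f)) h
    simp only [derivative_comp, derivative_add, derivative_mul, derivative_C, derivative_X,
      eval_comp, eval_add, eval_mul, eval_C, eval_X, zero_mul, zero_add, add_zero, mul_one] at h1
    exact mul_left_cancel₀ ha h1
  have hb0 : (derivative (famn K n k v)).eval b = 0 := by
    have := hder 0
    rw [mul_zero, zero_add] at this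
    rw [this, critn_zero hk]
  have hbf : (famn K n k v).eval b = b := by
    have := he 0
    rw [mul_zero, zero_add, evaln_zero hk hn, mul_zero, zero_add] at this
    exact this
  have hb : b = 0 := by
    rcases critn hk hn hv hb0 with h1 | h1 | h1
    · exact h1
    · rw [h1, evaln_one] at hbf
      exact absurd hbf hv1
    · rw [← hbf, h1]
  subst hb
  have ha0 : (derivative (famn K n k v)).eval a = 0 := by
    have := hder 1
    rw [mul_one, add_zero] at this
    rw [this, critn_one hk]
  have haf : (famn K n k v).eval a = a * v' := by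
    have := he 1
    rw [mul_one, add_zero, add_zero, evaln_one] at this
    exact this
  rcases critn hk hn hv ha0 with h1 | h1 | h1
  · exact absurd h1 ha
  · subst h1
    rw [evaln_one, one_mul] at haf
    exact haf
  · rw [h1] at haf
    exact absurd haf.symm (mul_ne_zero ha hv')

end general

end Algn

open Algn

theorem t_ALGN : DYNN → ALGN := by
  intro hB p _ n k hk hp hn hpn
  have hφ : Function.Injective (algebraMap ℚ_[p] (PadicAlgCl p)) :=
    (algebraMap ℚ_[p] (PadicAlgCl p)).injective
  have hchar : CharZero (PadicAlgCl p) := charZero_of_injective_algebraMap hφ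
  refine ⟨{v : ℚ_[p] | 1 < ‖v‖ ∧ ∃ N : ℕ, 1 ≤ N ∧
    (fun z : ℚ_[p] => (famn ℚ_[p] n k v).eval z)^[N + 1] v = 0 ∧
    ∀ i : ℕ, i ≤ N → (fun z : ℚ_[p] => (famn ℚ_[p] n k v).eval z)^[i] v ≠ 0}, ?_, ?_, ?_⟩
  · choose! v hv using fun N : ℕ => hB p n k hk hp hn hpn (N + 1) (by omega)
    refine Set.infinite_of_injective_forall_mem (f := v) ?_ ?_
    · have key : ∀ N m, N < m → v N ≠ v m := by
        intro N m hnm h
        have h1 := (hv N).2.1
        rw [h] at h1
        exact (hv m).2.2 (N + 1 + 1) (by omega) h1
      intro N m h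
      rcases lt_trichotomy N m with h1 | h1 | h1
      · exact absurd h (key N m h1)
      · exact h1
      · exact absurd h.symm (key m N h1)
    · intro N
      exact ⟨(hv N).1, N + 1, by omega, (hv N).2⟩
  · rintro v ⟨h1, N, _, h2, _⟩
    have hv0 : algebraMap ℚ_[p] (PadicAlgCl p) v ≠ 0 := by
      intro h
      rw [map_eq_zero_iff _ hφ] at h
      rw [h, norm_zero] at h1
      linarith
    refine ⟨famn_natDegree hk hv0, pcfn (N := N) hk hn hv0 ?_⟩
    have hs : Function.Semiconj (algebraMap ℚ_[p] (PadicAlgCl p))
        (fun z : ℚ_[p] => (famn ℚ_[p] n k v).eval z)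
        (fun z => (famn (PadicAlgCl p) n k (algebraMap ℚ_[p] (PadicAlgCl p) v)).eval z) := by
      intro z
      show algebraMap ℚ_[p] (PadicAlgCl p) ((famn ℚ_[p] n k v).eval z) =
        (famn (PadicAlgCl p) n k (algebraMap ℚ_[p] (PadicAlgCl p) v)).eval
          (algebraMap ℚ_[p] (PadicAlgCl p) z)
      rw [famn_eval, famn_eval, fam_eval, fam_eval]
      simp only [map_mul, map_pow, map_sub, map_natCast, map_one]
    rw [← hs.iterate_right (N + 1) v, h2, map_zero]
  · rintro v ⟨h1, _⟩ v' ⟨h1', _⟩ h
    refine hφ (distinctn hk hn ?_ ?_ ?_ h)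
    · intro h2
      rw [map_eq_zero_iff _ hφ] at h2
      rw [h2, norm_zero] at h1
      linarith
    · intro h2
      have : v = 1 := hφ (by rw [h2, map_one])
      rw [this, norm_one] at h1
      exact lt_irrefl _ h1
    · intro h2
      rw [map_eq_zero_iff _ hφ] at h2
      rw [h2, norm_zero] at h1'
      linarith

end Pool.Agent.Y19.TP
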