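import Pool.Agent.Y19.TP.Stm5
import Pool.Agent.Y665.TP.INFA

set_option autoImplicit false

/-! # `p`-adic dynamics of `v (z^(k-1) (k - (k-1) z))^n` (adapted from Y309/TP/INFB) -/

namespace Pool.Agent.Y19.TP

open Polynomial Function Pool.Agent.Y665.TP

namespace Dynn

variable {p : ℕ} [Fact p.Prime]

theorem na (x y : ℚ_[p]) (B : ℝ) (hx : ‖x‖ ≤ B) (hy : ‖y‖ ≤ B) : ‖x + y‖ ≤ B :=
  (IsUltrametricDist.norm_add_le_max x y).trans (max_le hx hy)

theorem pow_sub_le (R : ℝ) (hR : 0 ≤ R) (z z' : ℚ_[p]) (hz : ‖z‖ = R) (hz' : ‖z'‖ = R)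
    (m : ℕ) : ‖z ^ (m + 1) - z' ^ (m + 1)‖ ≤ R ^ m * ‖z - z'‖ := by
  induction m with
  | zero => simp
  | succ m ih =>
    have e : z ^ (m + 1 + 1) - z' ^ (m + 1 + 1) =
        z * (z ^ (m + 1) - z' ^ (m + 1)) + (z - z') * z' ^ (m + 1) := by ring
    rw [e]
    refine na _ _ _ ?_ ?_
    · rw [norm_mul, hz]
      calc R * ‖z ^ (m + 1) - z' ^ (m + 1)‖ ≤ R * (R ^ m * ‖z - z'‖) :=
            mul_le_mul_of_nonneg_left ih hR
        _ = R ^ (m + 1) * ‖z - z'‖ := by ring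
    · rw [norm_mul, norm_pow, hz', mul_comm]

theorem norm_one_of (r : ℚ_[p]) (ε : ℝ) (hε : ε < 1) (hr : ‖r - 1‖ ≤ ε) : ‖r‖ = 1 := by
  have h1 : r = 1 + (r - 1) := by ring
  have h2 : ‖(1 : ℚ_[p])‖ ≠ ‖r - 1‖ := by rw [norm_one]; exact (hr.trans_lt hε).ne'
  rw [h1, IsUltrametricDist.norm_add_eq_max_of_norm_ne_norm h2, norm_one]
  exact max_eq_left (hr.trans hε.le)

theorem Epow (ε : ℝ) (hε0 : 0 ≤ ε) (hε : ε < 1) (r s : ℚ_[p]) (hr : ‖r - 1‖ ≤ ε)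
    (hs : ‖s - 1‖ ≤ ε) (n : ℕ) :
    ‖r ^ n - s ^ n - (n : ℚ_[p]) * (r - s)‖ ≤ ε * ‖r - s‖ ∧ ‖s ^ n - 1‖ ≤ ε := by
  have hr1 := norm_one_of r ε hε hr
  have hs1 := norm_one_of s ε hε hs
  induction n with
  | zero =>
    constructor
    · simp only [pow_zero, sub_self, Nat.cast_zero, zero_mul, norm_zero]
      positivity
    · simp only [pow_zero, sub_self, norm_zero]
      exact hε0
  | succ n ih =>
    obtain ⟨ih1, ih2⟩ := ih
    constructor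
    · have e : r ^ (n + 1) - s ^ (n + 1) - ((n + 1 : ℕ) : ℚ_[p]) * (r - s) =
          r * (r ^ n - s ^ n - (n : ℚ_[p]) * (r - s)) +
          ((n : ℚ_[p]) * ((r - 1) * (r - s)) + (s ^ n - 1) * (r - s)) := by
        push_cast
        ring
      rw [e]
      refine na _ _ _ ?_ (na _ _ _ ?_ ?_)
      · rw [norm_mul, hr1, one_mul]
        exact ih1
      · rw [norm_mul, norm_mul]
        calc ‖(n : ℚ_[p])‖ * (‖r - 1‖ * ‖r - s‖) ≤ 1 * (ε * ‖r - s‖) := by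
              have := IsUltrametricDist.norm_natCast_le_one ℚ_[p] n
              gcongr
          _ = ε * ‖r - s‖ := one_mul _
      · rw [norm_mul]
        gcongr
    · have e : s ^ (n + 1) - 1 = s * (s ^ n - 1) + (s - 1) := by ring
      rw [e]
      refine na _ _ _ ?_ hs
      rw [norm_mul, hs1, one_mul]
      exact ih2

noncomputable def T (u dd : ℚ_[p]) (m : ℕ) (r c : ℚ_[p]) : ℚ_[p] :=
  u * (1 - r / (dd * c ^ (m + 1)))

theorem T_sub2 (u dd : ℚ_[p]) (m : ℕ) (R : ℝ) (hR : 1 < R) (hu : ‖u‖ = R)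
    (hdd : ‖dd‖ = 1) (r c : ℚ_[p]) (hr : ‖r‖ = 1) (hc : ‖c‖ = R) :
    ‖T u dd m r c - u‖ = (R ^ m)⁻¹ := by
  have hR0 : 0 < R := by linarith
  have e : T u dd m r c - u = -(u * (r / (dd * c ^ (m + 1)))) := by
    unfold T
    ring
  rw [e, norm_neg, norm_mul, norm_div, norm_mul, norm_pow, hu, hdd, hr, hc]
  field_simp
  ring

theorem T_lip2 (u dd : ℚ_[p]) (m : ℕ) (R : ℝ) (hR : 1 < R) (hu : ‖u‖ = R)
    (hdd : ‖dd‖ = 1) (r c r' c' : ℚ_[p]) (hr' : ‖r'‖ = 1)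
    (hc : ‖c‖ = R) (hc' : ‖c'‖ = R) (C : ℝ)
    (h1 : ‖r - r'‖ ≤ C) (h2 : ‖c - c'‖ ≤ R * C) :
    ‖T u dd m r c - T u dd m r' c'‖ ≤ (R ^ m)⁻¹ * C := by
  have hR0 : 0 < R := by linarith
  have hne : ∀ x : ℚ_[p], ‖x‖ = R → x ≠ 0 := by
    intro x hx h0
    rw [h0, norm_zero] at hx
    linarith
  have hc0 := hne c hc
  have hc0' := hne c' hc'
  have hdd0 : dd ≠ 0 := by
    intro h0
    rw [h0, norm_zero] at hdd
    exact zero_ne_one hdd
  have hC : 0 ≤ C := (norm_nonneg _).trans h1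
  have e : T u dd m r c - T u dd m r' c' =
      -(u * ((r - r') * c' ^ (m + 1) + r' * (c' ^ (m + 1) - c ^ (m + 1))) /
        (dd * c ^ (m + 1) * c' ^ (m + 1))) := by
    unfold T
    field_simp
    ring
  have hN : ‖(r - r') * c' ^ (m + 1) + r' * (c' ^ (m + 1) - c ^ (m + 1))‖ ≤ R ^ (m + 1) * C := by
    refine na _ _ _ ?_ ?_
    · rw [norm_mul, norm_pow, hc', mul_comm]
      gcongr
    · rw [norm_mul, hr', one_mul]
      refine (pow_sub_le R hR0.le c' c hc' hc m).trans ?_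
      rw [norm_sub_rev]
      calc R ^ m * ‖c - c'‖ ≤ R ^ m * (R * C) := by gcongr
        _ = R ^ (m + 1) * C := by ring
  rw [e, norm_neg, norm_div, norm_mul, hu, norm_mul, norm_mul, norm_pow, norm_pow, hdd, hc, hc',
    div_le_iff₀ (by positivity)]
  calc R * ‖(r - r') * c' ^ (m + 1) + r' * (c' ^ (m + 1) - c ^ (m + 1))‖
      ≤ R * (R ^ (m + 1) * C) := by gcongr
    _ = (R ^ m)⁻¹ * C * (1 * R ^ (m + 1) * R ^ (m + 1)) := by
        field_simp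
        ring


theorem root_exists (n : ℕ) (x : ℚ_[p]) (hx : ‖x - 1‖ < ‖(n : ℚ_[p])‖ ^ 2) :
    ∃ r : ℚ_[p], r ^ n = x ∧ ‖r - 1‖ < ‖(n : ℚ_[p])‖ := by
  have hn1 : ‖(n : ℚ_[p])‖ ≤ 1 := IsUltrametricDist.norm_natCast_le_one ℚ_[p] n
  have hx1 : ‖x‖ ≤ 1 := by
    have e : x = (x - 1) + 1 := by ring
    rw [e]
    refine na _ _ _ ?_ (by rw [norm_one])
    refine hx.le.trans ?_
    exact pow_le_one₀ (norm_nonneg _) hn1
  obtain ⟨X0, hX0⟩ : ∃ X0 : ℤ_[p], X0 = ⟨x, hx1⟩ := ⟨_, rfl⟩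
  have hX0' : (X0 : ℚ_[p]) = x := by rw [hX0]
  obtain ⟨F, hF⟩ : ∃ F : ℤ_[p][X], F = X ^ n - C X0 := ⟨_, rfl⟩
  have hF1 : F.eval 1 = 1 - X0 := by rw [hF]; simp
  have hF2 : (derivative F).eval 1 = (n : ℤ_[p]) := by
    rw [hF, derivative_sub, derivative_C, sub_zero, derivative_X_pow]
    simp
  have h := hensels_lemma (p := p) (F := F) (a := 1) (by
    rw [Polynomial.coe_aeval_eq_eval, hF1, hF2]
    have e1 : ‖(1 - X0 : ℤ_[p])‖ = ‖x - 1‖ := by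
      rw [PadicInt.norm_def, PadicInt.coe_sub, PadicInt.coe_one, hX0', norm_sub_rev]
    have e2 : ‖(n : ℤ_[p])‖ = ‖(n : ℚ_[p])‖ := by
      rw [PadicInt.norm_def, PadicInt.coe_natCast]
    rw [e1, e2]
    exact hx)
  obtain ⟨z, hz1, hz2, _⟩ := h
  rw [Polynomial.coe_aeval_eq_eval] at hz1 hz2
  rw [hF2] at hz2
  refine ⟨(z : ℚ_[p]), ?_, ?_⟩
  · rw [hF] at hz1
    have h2 : z ^ n = X0 := by
      have : z ^ n - X0 = 0 := by simpa using hz1
      exact sub_eq_zero.1 this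
    rw [← hX0', ← h2, PadicInt.coe_pow]
  · have e1 : ‖z - 1‖ = ‖(z : ℚ_[p]) - 1‖ := by
      rw [PadicInt.norm_def, PadicInt.coe_sub, PadicInt.coe_one]
    have e2 : ‖(n : ℤ_[p])‖ = ‖(n : ℚ_[p])‖ := by
      rw [PadicInt.norm_def, PadicInt.coe_natCast]
    rw [← e1, ← e2]
    exact hz2

theorem root_lip (n : ℕ) (r s : ℚ_[p]) (hr : ‖r - 1‖ < ‖(n : ℚ_[p])‖)
    (hs : ‖s - 1‖ < ‖(n : ℚ_[p])‖) : ‖(n : ℚ_[p])‖ * ‖r - s‖ ≤ ‖r ^ n - s ^ n‖ := by
  have hn1 : ‖(n : ℚ_[p])‖ ≤ 1 := IsUltrametricDist.norm_natCast_le_one ℚ_[p] n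
  by_cases hrs : r = s
  · subst hrs
    simp
  have hrs0 : 0 < ‖r - s‖ := norm_pos_iff.2 (sub_ne_zero.2 hrs)
  obtain ⟨ε, hε⟩ : ∃ ε : ℝ, ε = max ‖r - 1‖ ‖s - 1‖ := ⟨_, rfl⟩
  have hεn : ε < ‖(n : ℚ_[p])‖ := by rw [hε]; exact max_lt hr hs
  have h1 := (Epow ε (by rw [hε]; exact (norm_nonneg _).trans (le_max_left _ _))
    (hεn.trans_le hn1) r s (by rw [hε]; exact le_max_left _ _)
    (by rw [hε]; exact le_max_right _ _) n).1
  have h2 : ‖(n : ℚ_[p]) * (r - s)‖ = ‖(n : ℚ_[p])‖ * ‖r - s‖ := norm_mul _ _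
  have h3 : ‖r ^ n - s ^ n - (n : ℚ_[p]) * (r - s)‖ < ‖(n : ℚ_[p]) * (r - s)‖ := by
    rw [h2]
    exact h1.trans_lt (mul_lt_mul_of_pos_right hεn hrs0)
  have e : r ^ n - s ^ n = (r ^ n - s ^ n - (n : ℚ_[p]) * (r - s)) + (n : ℚ_[p]) * (r - s) := by
    ring
  rw [e, IsUltrametricDist.norm_add_eq_max_of_norm_ne_norm h3.ne, h2]
  exact le_max_right _ _

theorem x_lip (R : ℝ) (hR : 0 < R) (a b a' b' : ℚ_[p]) (ha : ‖a‖ = R) (ha' : ‖a'‖ = R)
    (hb' : ‖b'‖ = R) (C : ℝ) (h1 : ‖a - a'‖ ≤ C) (h2 : ‖b - b'‖ ≤ C) :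
    ‖b / a - b' / a'‖ ≤ R⁻¹ * C := by
  have hne : ∀ x : ℚ_[p], ‖x‖ = R → x ≠ 0 := by
    intro x hx h0
    rw [h0, norm_zero] at hx
    linarith
  have ha0 := hne a ha
  have ha0' := hne a' ha'
  have e : b / a - b' / a' = ((b - b') * a' + b' * (a' - a)) / (a * a') := by
    field_simp
    ring
  rw [e, norm_div, norm_mul, ha, ha', div_le_iff₀ (by positivity)]
  have h3 : ‖(b - b') * a' + b' * (a' - a)‖ ≤ R * C := by
    refine na _ _ _ ?_ ?_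
    · rw [norm_mul, ha', mul_comm]
      gcongr
    · rw [norm_mul, hb', norm_sub_rev]
      gcongr
  refine h3.trans (le_of_eq ?_)
  field_simp

end Dynn

open Dynn

theorem t_DYNN : DYNN := by
  intro p _ n k hk hpk hn0 hpn N hN
  obtain ⟨m, rfl⟩ : ∃ m, k = m + 2 := ⟨k - 2, by omega⟩
  have hm : 1 ≤ m := by omega
  have hpk' : p ∣ m + 1 := hpk
  obtain ⟨e, he⟩ : ∃ e : ℚ_[p], e = ((m + 1 : ℕ) : ℚ_[p]) := ⟨_, rfl⟩
  obtain ⟨dd, hdd⟩ : ∃ dd : ℚ_[p], dd = ((m + 2 : ℕ) : ℚ_[p]) := ⟨_, rfl⟩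
  have hde : dd = e + 1 := by rw [hdd, he]; push_cast; ring
  have he1 : ‖e‖ < 1 := by
    rw [he]
    exact (Padic.norm_natCast_lt_one_iff).2 hpk'
  have he0 : e ≠ 0 := by
    rw [he]
    exact_mod_cast (by omega : m + 1 ≠ 0)
  have hen : 0 < ‖e‖ := norm_pos_iff.2 he0
  have hdd1 : ‖dd‖ = 1 := by
    rw [hde, IsUltrametricDist.norm_add_eq_max_of_norm_ne_norm (by rw [norm_one]; exact he1.ne),
      norm_one]
    exact max_eq_right he1.le
  have hdd0 : dd ≠ 0 := by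
    intro h0
    rw [h0, norm_zero] at hdd1
    exact zero_ne_one hdd1
  obtain ⟨R, hRd⟩ : ∃ R : ℝ, R = ‖e‖⁻¹ := ⟨_, rfl⟩
  have hR1 : 1 < R := by rw [hRd]; exact (one_lt_inv₀ hen).2 he1
  have hR0 : 0 < R := by linarith
  have hn0' : (n : ℚ_[p]) ≠ 0 := Nat.cast_ne_zero.2 hn0
  obtain ⟨ν, hν⟩ : ∃ ν : ℝ, ν = ‖(n : ℚ_[p])‖ := ⟨_, rfl⟩
  have hν0 : 0 < ν := by rw [hν]; exact norm_pos_iff.2 hn0'
  have hν1 : ν ≤ 1 := by rw [hν]; exact IsUltrametricDist.norm_natCast_le_one ℚ_[p] n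
  have hcond : (R ^ (m + 1))⁻¹ < ν ^ 2 := by
    have h1 : ‖((m + 2 - 1 : ℕ) : ℚ_[p])‖ ^ (m + 2 - 1) < ‖(n : ℚ_[p])‖ ^ 2 := hpn
    have h2 : m + 2 - 1 = m + 1 := rfl
    rw [h2, ← he, ← hν] at h1
    rw [hRd, inv_pow, inv_inv]
    exact h1
  obtain ⟨u, hu⟩ : ∃ u : ℚ_[p], u = dd / e := ⟨_, rfl⟩
  have hun : ‖u‖ = R := by rw [hu, norm_div, hdd1, hRd, one_div]
  have hu0 : u ≠ 0 := by rw [hu]; exact div_ne_zero hdd0 he0
  obtain ⟨r0, hr0⟩ : ∃ r0 : ℝ, r0 = (R ^ m)⁻¹ := ⟨_, rfl⟩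
  have hr00 : 0 ≤ r0 := by rw [hr0]; positivity
  have hr01 : r0 < R := by
    have h1 : r0 ≤ 1 := by
      rw [hr0]
      exact inv_le_one_of_one_le₀ (one_le_pow₀ hR1.le)
    linarith
  have hnormD : ∀ z ∈ Metric.closedBall u r0, ‖z‖ = R := by
    intro z hz
    rw [mem_closedBall_iff_norm] at hz
    have h1 : z = u + (z - u) := by ring
    have h2 : ‖u‖ ≠ ‖z - u‖ := by rw [hun]; exact (hz.trans_lt hr01).ne'
    rw [h1, IsUltrametricDist.norm_add_eq_max_of_norm_ne_norm h2, hun]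
    exact max_eq_left (hz.trans hr01.le)
  have hne0 : ∀ x : ℚ_[p], ‖x‖ = R → x ≠ 0 := by
    intro x hx h0
    rw [h0, norm_zero] at hx
    linarith
  -- the root function
  choose! ρ hρ using fun x : ℚ_[p] => root_exists (p := p) n x
  -- the fixed point
  have hcompl : CompleteSpace (Metric.closedBall u r0) :=
    Metric.isClosed_closedBall.completeSpace_coe
  have huD : u ∈ Metric.closedBall u r0 := Metric.mem_closedBall_self hr00
  have hne : Nonempty (Fin N → Metric.closedBall u r0) := ⟨fun _ => ⟨u, huD⟩⟩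
  let ext : (Fin N → Metric.closedBall u r0) → ℕ → ℚ_[p] :=
    fun z i => if h : i < N then (z ⟨i, h⟩ : ℚ_[p]) else u
  have hextD : ∀ z i, ext z i ∈ Metric.closedBall u r0 := by
    intro z i
    by_cases h : i < N
    · simp only [ext, dif_pos h]
      exact (z ⟨i, h⟩).2
    · simp only [ext, dif_neg h]
      exact huD
  have hextn : ∀ z i, ‖ext z i‖ = R := fun z i => hnormD _ (hextD z i)
  have hextd : ∀ z z' i, ‖ext z i - ext z' i‖ ≤ dist z z' := by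
    intro z z' i
    by_cases h : i < N
    · simp only [ext, dif_pos h]
      have h1 := dist_le_pi_dist z z' ⟨i, h⟩
      rw [Subtype.dist_eq, dist_eq_norm] at h1
      exact h1
    · simp only [ext, dif_neg h, sub_self, norm_zero]
      exact dist_nonneg
  have hx1 : ∀ z (i : ℕ), ‖ext z (i + 1) / ext z 0 - 1‖ < ‖(n : ℚ_[p])‖ ^ 2 := by
    intro z i
    have h0 : ext z 0 ≠ 0 := hne0 _ (hextn z 0)
    have e1 : ext z (i + 1) / ext z 0 - 1 = (ext z (i + 1) - ext z 0) / ext z 0 := by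
      rw [sub_div, div_self h0]
    have h2 : ‖ext z (i + 1) - ext z 0‖ ≤ r0 := by
      have e2 : ext z (i + 1) - ext z 0 = (ext z (i + 1) - u) + (u - ext z 0) := by ring
      rw [e2]
      refine na _ _ _ (mem_closedBall_iff_norm.1 (hextD z _)) ?_
      rw [norm_sub_rev]
      exact mem_closedBall_iff_norm.1 (hextD z _)
    rw [e1, norm_div, hextn z 0, ← hν]
    refine lt_of_le_of_lt ?_ hcond
    rw [div_le_iff₀ hR0]
    refine h2.trans (le_of_eq ?_)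
    rw [hr0]
    field_simp
    ring
  let xr : (Fin N → Metric.closedBall u r0) → ℕ → ℚ_[p] :=
    fun z i => ρ (ext z (i + 1) / ext z 0)
  have hxr1 : ∀ z i, (xr z i) ^ n = ext z (i + 1) / ext z 0 := fun z i => (hρ _ (hx1 z i)).1
  have hxr2 : ∀ z i, ‖xr z i - 1‖ < ‖(n : ℚ_[p])‖ := fun z i => (hρ _ (hx1 z i)).2
  have hxr3 : ∀ z i, ‖xr z i‖ = 1 := by
    intro z i
    have h1 : xr z i = 1 + (xr z i - 1) := by ring
    have h3 : ‖xr z i - 1‖ < 1 := (hxr2 z i).trans_le (hν ▸ hν1)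
    have h2 : ‖(1 : ℚ_[p])‖ ≠ ‖xr z i - 1‖ := by rw [norm_one]; exact h3.ne'
    rw [h1, IsUltrametricDist.norm_add_eq_max_of_norm_ne_norm h2, norm_one]
    exact max_eq_left h3.le
  have hxr4 : ∀ z z' i, ‖xr z i - xr z' i‖ ≤ (R * ν)⁻¹ * dist z z' := by
    intro z z' i
    have h1 := root_lip n _ _ (hxr2 z i) (hxr2 z' i)
    rw [hxr1, hxr1, ← hν] at h1
    have h2 := x_lip R hR0 _ _ _ _ (hextn z 0) (hextn z' 0) (hextn z' (i + 1)) _ (hextd z z' 0)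
            (hextd z z' (i + 1))
    have h3 := h1.trans h2
    rw [mul_comm, ← le_div_iff₀ hν0] at h3
    refine h3.trans (le_of_eq ?_)
    field_simp
  have hmem1 : ∀ z (i : ℕ), T u dd m (xr z i) (ext z i) ∈ Metric.closedBall u r0 := by
    intro z i
    rw [mem_closedBall_iff_norm, hr0]
    exact (T_sub2 u dd m R hR1 hun hdd1 _ _ (hxr3 z i) (hextn z i)).le
  let Ψ : (Fin N → Metric.closedBall u r0) → (Fin N → Metric.closedBall u r0) :=
    fun z i => ⟨T u dd m (xr z i) (ext z i), hmem1 z i⟩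
  obtain ⟨κ, hκ⟩ : ∃ κ : ℝ, κ = (R ^ m)⁻¹ * (R * ν)⁻¹ := ⟨_, rfl⟩
  have hκ0 : 0 ≤ κ := by rw [hκ]; positivity
  have hκ1 : κ < 1 := by
    have h1 : κ * ν < 1 * ν := by
      have h2 : κ * ν = (R ^ (m + 1))⁻¹ := by
        rw [hκ]
        field_simp
        ring
      rw [h2, one_mul]
      refine hcond.trans_le ?_
      calc ν ^ 2 = ν * ν := sq ν
        _ ≤ 1 * ν := by gcongr
        _ = ν := one_mul ν
    exact lt_of_mul_lt_mul_right h1 hν0.le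
  have hcontr : ContractingWith ⟨κ, hκ0⟩ Ψ := by
    refine ⟨?_, LipschitzWith.of_dist_le_mul fun z z' => ?_⟩
    · exact_mod_cast hκ1
    · rw [dist_pi_le_iff (by positivity)]
      intro i
      rw [Subtype.dist_eq, dist_eq_norm]
      refine (T_lip2 u dd m R hR1 hun hdd1 _ _ _ _ (hxr3 z' _) (hextn z _) (hextn z' _)
          ((R * ν)⁻¹ * dist z z') (hxr4 z z' _) ((hextd z z' _).trans ?_)).trans ?_
      · have h1 : R * ((R * ν)⁻¹ * dist z z') = ν⁻¹ * dist z z' := by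
          field_simp
        rw [h1]
        have h2 : 1 ≤ ν⁻¹ := (one_le_inv₀ hν0).2 hν1
        calc dist z z' = 1 * dist z z' := (one_mul _).symm
          _ ≤ ν⁻¹ * dist z z' := mul_le_mul_of_nonneg_right h2 dist_nonneg
      · show (R ^ m)⁻¹ * ((R * ν)⁻¹ * dist z z') ≤ κ * dist z z'
        rw [hκ, mul_assoc]
  obtain ⟨z, hz⟩ : ∃ z, Ψ z = z := ⟨_, hcontr.fixedPoint_isFixedPt⟩
  obtain ⟨v, hv⟩ : ∃ v : ℚ_[p], v = ext z 0 := ⟨_, rfl⟩
  have hvn : ‖v‖ = R := by rw [hv]; exact hextn z 0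
  have hfam : ∀ y : ℚ_[p], (famn ℚ_[p] n (m + 2) v).eval y =
      v * (y ^ (m + 1) * (dd - e * y)) ^ n := by
    intro y
    unfold famn
    have h1 : m + 2 - 1 = m + 1 := rfl
    rw [eval_mul, eval_C, eval_pow, fam_eval, h1, hdd, he]
    push_cast
    ring
  have hstep : ∀ i, i < N → (famn ℚ_[p] n (m + 2) v).eval (ext z i) = ext z (i + 1) := by
    intro i hi
    have h1 : ((Ψ z) ⟨i, hi⟩ : ℚ_[p]) = (z ⟨i, hi⟩ : ℚ_[p]) := by rw [hz]
    have h2 : (z ⟨i, hi⟩ : ℚ_[p]) = ext z i := by simp only [ext, dif_pos hi]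
    have h3 : T u dd m (xr z i) (ext z i) = ext z i := h1.trans h2
    have h3' := hxr1 z i
    rw [hfam]
    rw [← hv] at h3'
    have hv0 := hne0 v hvn
    have hx0 := hne0 _ (hextn z i)
    generalize ext z i = x at h3 hx0 ⊢
    generalize ext z (i + 1) = y at h3' ⊢
    generalize xr z i = r at h3 h3'
    have h4 : x ^ (m + 1) * (dd - e * x) = r := by
      unfold T at h3
      have h5 : dd * x ^ (m + 1) ≠ 0 := mul_ne_zero hdd0 (pow_ne_zero _ hx0)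
      have h6 : r / (dd * x ^ (m + 1)) = 1 - x / u := by
        rw [eq_sub_iff_add_eq, ← eq_sub_iff_add_eq']
        rw [div_eq_iff hu0]
        rw [← h3]
        conv_rhs => rw [h3]
        rw [mul_comm]
      rw [div_eq_iff h5] at h6
      rw [h6, hu]
      field_simp
    rw [h4, h3']
    field_simp
  have hiter : ∀ i, i ≤ N →
      (fun z : ℚ_[p] => (famn ℚ_[p] n (m + 2) v).eval z)^[i] v = ext z i := by
    intro i
    induction i with
    | zero => intro _; exact hv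
    | succ i ih =>
      intro hi
      rw [Function.iterate_succ_apply', ih (by omega)]
      exact hstep i (by omega)
  refine ⟨v, by rw [hvn]; exact hR1, ?_, ?_⟩
  · rw [Function.iterate_succ_apply', hiter N le_rfl]
    have h1 : ext z N = u := by simp only [ext, dif_neg (lt_irrefl N)]
    rw [h1]
    show (famn ℚ_[p] n (m + 2) v).eval u = 0
    rw [hfam, hu]
    have h2 : dd - e * (dd / e) = 0 := by
      field_simp
      ring
    rw [h2, mul_zero, zero_pow hn0, mul_zero]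
  · intro i hi
    rw [hiter i hi]
    exact hne0 _ (hextn z i)

end Pool.Agent.Y19.TP
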