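import Pool.Agent.Y19.TP.Stm4

set_option autoImplicit false

/-!
# Part INFKA: infinitely many classes, algebra (adapted from Pool/Agent/Y665/TP/INFA.lean)
-/

namespace Pool.Agent.Y19.TP

open Polynomial Function

section general

variable {K : Type} [Field K] [CharZero K] {d m : ℕ}

theorem fam2_deriv (hB : BERN) (hm1 : 1 ≤ m) (hmd : m ≤ d) (v z : K) :
    (derivative (fam2 K d m v)).eval z =
      v * (((m * d.choose m : ℕ) : K) * z ^ (m - 1) * (1 - z) ^ (d - m)) := by
  unfold fam2
  rw [derivative_mul, derivative_C, zero_mul, zero_add, (hB K d m hm1 hmd).1]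
  simp only [eval_mul, eval_C, eval_pow, eval_X, eval_sub, eval_one]

theorem fam2_natDegree (hB : BERN) (hm1 : 1 ≤ m) (hmd : m ≤ d) {v : K} (hv : v ≠ 0) :
    (fam2 K d m v).natDegree = d := by
  unfold fam2
  rw [natDegree_C_mul hv]
  exact (hB K d m hm1 hmd).2.2.2.1

theorem crit2 (hB : BERN) (hm1 : 1 ≤ m) (hmd : m ≤ d) {v : K} (hv : v ≠ 0) {z : K}
    (h : (derivative (fam2 K d m v)).eval z = 0) : z = 0 ∨ z = 1 := by
  rw [fam2_deriv hB hm1 hmd] at h
  have hC : ((m * d.choose m : ℕ) : K) ≠ 0 := by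
    rw [Nat.cast_ne_zero]
    exact (Nat.mul_pos hm1 (Nat.choose_pos hmd)).ne'
  by_contra hcon
  push Not at hcon
  obtain ⟨h0, h1⟩ := hcon
  exact mul_ne_zero hv (mul_ne_zero (mul_ne_zero hC (pow_ne_zero _ h0))
    (pow_ne_zero _ (sub_ne_zero.2 (Ne.symm h1)))) h

theorem crit2_zero (hB : BERN) (hm1 : 2 ≤ m) (hmd : m ≤ d) (v : K) :
    (derivative (fam2 K d m v)).eval 0 = 0 := by
  rw [fam2_deriv hB (by omega) hmd, zero_pow (by omega)]
  ring

theorem crit2_one (hB : BERN) (hm1 : 2 ≤ m) (hmd : m < d) (v : K) :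
    (derivative (fam2 K d m v)).eval 1 = 0 := by
  rw [fam2_deriv hB (by omega) hmd.le, sub_self, zero_pow (by omega)]
  ring

theorem eval2_zero (hB : BERN) (hm1 : 1 ≤ m) (hmd : m ≤ d) (v : K) :
    (fam2 K d m v).eval 0 = 0 := by
  unfold fam2
  rw [eval_mul, (hB K d m hm1 hmd).2.1, mul_zero]

theorem eval2_one (hB : BERN) (hm1 : 1 ≤ m) (hmd : m ≤ d) (v : K) :
    (fam2 K d m v).eval 1 = v := by
  unfold fam2
  rw [eval_mul, (hB K d m hm1 hmd).2.2.1, mul_one, eval_C]

theorem pcf2 (hB : BERN) (hm1 : 1 ≤ m) (hmd : m ≤ d) {v : K} (hv : v ≠ 0) {n : ℕ}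
    (h : (fun z : K => (fam2 K d m v).eval z)^[n + 1] v = 0) : IsPCF (fam2 K d m v) := by
  intro z hz
  have h0 : ∀ k, (fun w : K => (fam2 K d m v).eval w)^[k] 0 = 0 := by
    intro k
    induction k with
    | zero => rfl
    | succ k ih => rw [Function.iterate_succ_apply', ih]; exact eval2_zero hB hm1 hmd v
  rcases crit2 hB hm1 hmd hv hz with rfl | rfl
  · refine (Set.finite_singleton (0 : K)).subset ?_
    rintro _ ⟨k, rfl⟩
    exact h0 k
  · have h1 : ∀ k, (fun w : K => (fam2 K d m v).eval w)^[k + 1] 1 =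
        (fun w : K => (fam2 K d m v).eval w)^[k] v := by
      intro k
      rw [Function.iterate_succ_apply]
      congr 1
      exact eval2_one hB hm1 hmd v
    have h2 : ∀ j, (fun w : K => (fam2 K d m v).eval w)^[j + (n + 1)] v = 0 := by
      intro j
      rw [Function.iterate_add_apply, h, h0]
    classical
    refine (((Finset.range (n + 3)).image
      (fun k => (fun w : K => (fam2 K d m v).eval w)^[k] 1)).finite_toSet).subset ?_
    rintro _ ⟨k, rfl⟩
    rw [Finset.mem_coe, Finset.mem_image]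
    by_cases hk : k < n + 3
    · exact ⟨k, Finset.mem_range.2 hk, rfl⟩
    · refine ⟨n + 2, Finset.mem_range.2 (by omega), ?_⟩
      show (fun w : K => (fam2 K d m v).eval w)^[n + 1 + 1] 1 = _
      rw [h1, h]
      obtain ⟨j, rfl⟩ : ∃ j, k = j + (n + 1) + 1 := ⟨k - (n + 2), by omega⟩
      show _ = (fun w : K => (fam2 K d m v).eval w)^[j + (n + 1) + 1] 1
      rw [h1, h2]

theorem distinct2 (hB : BERN) (hm1 : 2 ≤ m) (hmd : m < d) {v v' : K} (hv : v ≠ 0) (hv1 : v ≠ 1)
    (h : AffConj (fam2 K d m v) (fam2 K d m v')) : v = v' := by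
  obtain ⟨a, b, ha, h⟩ := h
  have hm1' : 1 ≤ m := by omega
  have he : ∀ z, (fam2 K d m v).eval (a * z + b) = a * (fam2 K d m v').eval z + b := by
    intro z
    have := congrArg (Polynomial.eval z) h
    simpa only [eval_comp, eval_add, eval_mul, eval_C, eval_X] using this
  have hder : ∀ z, (derivative (fam2 K d m v)).eval (a * z + b) =
      (derivative (fam2 K d m v')).eval z := by
    intro z
    have h1 := congrArg (fun f => Polynomial.eval z (derivative f)) h
    simp only [derivative_comp, derivative_add, derivative_mul, derivative_C, derivative_X,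
      eval_comp, eval_add, eval_mul, eval_C, eval_X, zero_mul, zero_add, add_zero, mul_one] at h1
    exact mul_left_cancel₀ ha h1
  have hb : b = 0 ∨ b = 1 := by
    apply crit2 hB hm1' hmd.le hv
    have := hder 0
    rw [mul_zero, zero_add] at this
    rw [this, crit2_zero hB hm1 hmd.le]
  have hab : a + b = 0 ∨ a + b = 1 := by
    apply crit2 hB hm1' hmd.le hv
    have := hder 1
    rw [mul_one] at this
    rw [this, crit2_one hB hm1 hmd]
  rcases hb with rfl | rfl
  · rcases hab with h1 | h1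
    · rw [add_zero] at h1
      exact absurd h1 ha
    · rw [add_zero] at h1
      subst h1
      have := he 1
      rw [mul_one, add_zero, add_zero, one_mul, eval2_one hB hm1' hmd.le,
        eval2_one hB hm1' hmd.le] at this
      exact this
  · have ha1 : a = -1 := by
      rcases hab with h1 | h1
      · linear_combination h1
      · exfalso
        apply ha
        linear_combination h1
    subst ha1
    have := he 0
    rw [mul_zero, zero_add, eval2_one hB hm1' hmd.le, eval2_zero hB hm1' hmd.le, mul_zero,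
      zero_add] at this
    exact absurd this hv1

end general

theorem t_INFKA : BERN → INFKB → INFKA := by
  intro hBE hB p hp d hpd hnd
  obtain ⟨K, hK1, hK2, hK3⟩ := hB p d hpd hnd
  have hp2 := hp.out.two_le
  have hmod : 1 ≤ d % p := by
    rcases Nat.eq_zero_or_pos (d % p) with h | h
    · exact absurd (Nat.dvd_of_mod_eq_zero h) hnd
    · exact h
  have hmod2 : d % p < p := Nat.mod_lt _ hp.out.pos
  have hm2 : 2 ≤ d - d % p := by
    have h1 : p * (d / p) = d - d % p := by have := Nat.div_add_mod d p; omega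
    have h2 : 1 ≤ d / p := Nat.div_pos hpd.le hp.out.pos
    rw [← h1]
    calc 2 ≤ p := hp2
      _ = p * 1 := (mul_one p).symm
      _ ≤ p * (d / p) := Nat.mul_le_mul_left _ h2
  have hmd : d - d % p < d := by omega
  refine ⟨K, hK1, hK2, {v : PadicAlgCl p | v ∈ K ∧ 1 < ‖v‖ ∧ ∃ n : ℕ, 1 ≤ n ∧
    (fun z => (fam2 (PadicAlgCl p) d (d - d % p) v).eval z)^[n + 1] v = 0 ∧
    ∀ i : ℕ, i ≤ n → (fun z => (fam2 (PadicAlgCl p) d (d - d % p) v).eval z)^[i] v ≠ 0},
    ?_, ?_, ?_, ?_⟩
  · choose! v hv using fun n : ℕ => hK3 (n + 1) (by omega)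
    refine Set.infinite_of_injective_forall_mem (f := v) ?_ ?_
    · have key : ∀ n m, n < m → v n ≠ v m := by
        intro n m hnm h
        have h1 := (hv n).2.2.1
        rw [h] at h1
        exact (hv m).2.2.2 (n + 1 + 1) (by omega) h1
      intro n m h
      rcases lt_trichotomy n m with h1 | h1 | h1
      · exact absurd h (key n m h1)
      · exact h1
      · exact absurd h.symm (key m n h1)
    · intro n
      exact ⟨(hv n).1, (hv n).2.1, n + 1, by omega, (hv n).2.2⟩
  · exact fun v hv => hv.1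
  · rintro v ⟨_, h1, n, _, h2, _⟩
    have hv0 : v ≠ 0 := by
      intro h
      rw [h, norm_zero] at h1
      linarith
    exact ⟨fam2_natDegree hBE (by omega) hmd.le hv0, pcf2 hBE (by omega) hmd.le hv0 h2⟩
  · rintro v ⟨_, h1, _⟩ v' _ h
    refine distinct2 hBE hm2 hmd ?_ ?_ h
    · intro h2
      rw [h2, norm_zero] at h1
      linarith
    · intro h2
      rw [h2, norm_one] at h1
      exact lt_irrefl _ h1

end Pool.Agent.Y19.TP
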