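import Pool.Agent.Y19.TP.Stm4
import Pool.Agent.Y65.TP.CNT
import Pool.Agent.Y65.TP.ROLLE
import Pool.Agent.Y83.TP.INT

set_option autoImplicit false

/-!
# Part INTC: integrality of postcritically finite polynomials of degree `c * p ^ s`, `c < p`
-/

namespace Pool.Agent.Y19.TP

open Polynomial Function Pool.Agent.Y65.TP
open scoped Classical

section

variable {U : Type} [NormedField U] [IsUltrametricDist U]

/-- Norms of naturals prime to `p`. -/
lemma norm_nat_eq_one {p : ℕ} (hp : p.Prime) (hlt : ‖(p : U)‖ < 1) {m : ℕ} (hm : ¬ p ∣ m) :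
    ‖(m : U)‖ = 1 := by
  refine le_antisymm (IsUltrametricDist.norm_natCast_le_one U m) ?_
  have hco : Nat.Coprime p m := (Nat.Prime.coprime_iff_not_dvd hp).2 hm
  have h1 : ((p : ℤ) * p.gcdA m + (m : ℤ) * p.gcdB m : ℤ) = 1 := by
    rw [← Nat.gcd_eq_gcd_ab, hco]; rfl
  have h2 : (p : U) * (p.gcdA m : U) + (m : U) * (p.gcdB m : U) = 1 := by
    have h3 := congrArg (Int.cast : ℤ → U) h1
    push_cast at h3
    exact h3
  by_contra hcon
  rw [not_le] at hcon
  have h3 : ‖(p : U) * (p.gcdA m : U) + (m : U) * (p.gcdB m : U)‖ < 1 := by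
    refine lt_of_le_of_lt (IsUltrametricDist.norm_add_le_max _ _) (max_lt ?_ ?_)
    · rw [norm_mul]
      exact lt_of_le_of_lt (mul_le_of_le_one_right (norm_nonneg _)
        (IsUltrametricDist.norm_intCast_le_one U _)) hlt
    · rw [norm_mul]
      exact lt_of_le_of_lt (mul_le_of_le_one_right (norm_nonneg _)
        (IsUltrametricDist.norm_intCast_le_one U _)) hcon
  rw [h2, norm_one] at h3
  exact lt_irrefl _ h3

/-- If `|N| ≤ |c p^s|` and `1 ≤ N ≤ c p^s`, `1 ≤ c < p` then `|N| = |c p^s|`. -/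
lemma norm_nat_eq {p s c N : ℕ} [CharZero U] (hp : p.Prime) (hlt : ‖(p : U)‖ < 1) (hc : 1 ≤ c)
    (hcp : c < p) (hN : 1 ≤ N) (hNd : N ≤ c * p ^ s) (h : ‖(N : U)‖ ≤ ‖((c * p ^ s : ℕ) : U)‖) :
    ‖(N : U)‖ = ‖((c * p ^ s : ℕ) : U)‖ := by
  have hp0 : 0 < ‖(p : U)‖ := norm_pos_iff.2 (by exact_mod_cast hp.ne_zero)
  have hd : ‖((c * p ^ s : ℕ) : U)‖ = ‖(p : U)‖ ^ s := by
    rw [Nat.cast_mul, norm_mul, Nat.cast_pow, norm_pow, norm_nat_eq_one hp hlt, one_mul]
    intro h
    exact absurd (Nat.le_of_dvd (by omega) h) (by omega)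
  obtain ⟨a, e, he, hNe⟩ := Nat.exists_eq_pow_mul_and_not_dvd (n := N) (by omega) p hp.ne_one
  have hNn : ‖(N : U)‖ = ‖(p : U)‖ ^ a := by
    rw [hNe, Nat.cast_mul, norm_mul, Nat.cast_pow, norm_pow, norm_nat_eq_one hp hlt he, mul_one]
  rw [hNn, hd] at h
  have h1 : s ≤ a := (pow_le_pow_iff_right_of_lt_one₀ hp0 hlt).1 h
  have h2 : a < s + 1 := by
    have he1 : 1 ≤ e := by
      rcases Nat.eq_zero_or_pos e with h | h
      · rw [h] at he; exact absurd (dvd_zero p) he
      · exact h
    have h3 : p ^ a < p ^ (s + 1) := by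
      calc p ^ a ≤ p ^ a * e := Nat.le_mul_of_pos_right _ he1
        _ = N := hNe.symm
        _ ≤ c * p ^ s := hNd
        _ < p * p ^ s := Nat.mul_lt_mul_of_pos_right hcp (pow_pos hp.pos s)
        _ = p ^ (s + 1) := by ring
    exact (Nat.pow_lt_pow_iff_right hp.one_lt).1 h3
  have h3 : a = s := by omega
  rw [hNn, hd, h3]

end

theorem t_INTC : INTC := by
  intro U _ _ _ _ p s c hp hc hcp hd2 hlt f hf hdeg hf0' hP
  obtain ⟨d, hd⟩ : ∃ d, d = c * p ^ s := ⟨_, rfl⟩
  rw [← hd] at hdeg hd2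
  have hf0 : f ≠ 0 := hf.ne_zero
  have hsp : f.Splits := IsAlgClosed.splits f
  have hcard : f.roots.card = d := by rw [← hsp.natDegree_eq_card_roots, hdeg]
  have hprod : f = (f.roots.map fun a => X - C a).prod := by
    have := hsp.eq_prod_roots
    rw [hf.leadingCoeff, C_1, one_mul] at this
    exact this
  have hmem : ∀ z : U, z ∈ f.roots ↔ f.eval z = 0 := fun z => by
    rw [mem_roots hf0, IsRoot.def]
  have h0mem : (0 : U) ∈ f.roots := by
    rw [hmem, ← coeff_zero_eq_eval_zero]; exact hf0'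
  have hD0 : derivative f ≠ 0 := by
    intro h
    have := natDegree_eq_zero_of_derivative_eq_zero h
    omega
  have hDdeg : (derivative f).natDegree = d - 1 := by
    have := degree_derivative_eq f (by omega)
    rw [degree_eq_natDegree hD0, hdeg] at this
    exact_mod_cast this
  have hDcard : (derivative f).roots.card = d - 1 := by
    rw [← (IsAlgClosed.splits (derivative f)).natDegree_eq_card_roots, hDdeg]
  have hDmem : ∀ z : U, z ∈ (derivative f).roots ↔ (derivative f).eval z = 0 := fun z => by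
    rw [mem_roots hD0, IsRoot.def]
  -- the largest norm
  obtain ⟨z1, hz1, hmax⟩ := Finset.exists_max_image
    (f.roots.toFinset ∪ (derivative f).roots.toFinset) (fun z => ‖z‖)
    ⟨0, Finset.mem_union_left _ (Multiset.mem_toFinset.2 h0mem)⟩
  obtain ⟨ρ, hρ⟩ : ∃ ρ, ρ = ‖z1‖ := ⟨_, rfl⟩
  have hR : ∀ z ∈ f.roots, ‖z‖ ≤ ρ := by
    intro z hz
    rw [hρ]
    exact hmax z (Finset.mem_union_left _ (Multiset.mem_toFinset.2 hz))
  have hCr : ∀ z ∈ (derivative f).roots, ‖z‖ ≤ ρ := by
    intro z hz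
    rw [hρ]
    exact hmax z (Finset.mem_union_right _ (Multiset.mem_toFinset.2 hz))
  rcases le_or_gt ρ 1 with hρ1 | hρ1
  · intro i
    rw [hprod]
    exact Pool.Agent.Y83.TP.coeff_prod_le f.roots (fun z hz => (hR z hz).trans hρ1) i
  exfalso
  have hρ0 : 0 < ρ := by linarith
  -- growth
  have hgrow : ∀ y : U, ρ < ‖y‖ → ‖y‖ < ‖f.eval y‖ := by
    intro y hy
    have h1 : ∀ z ∈ f.roots, ‖y - z‖ = ‖y‖ := by
      intro z hz
      have hlt : ‖z‖ < ‖y‖ := (hR z hz).trans_lt hy
      rw [sub_eq_add_neg]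
      rw [IsUltrametricDist.norm_add_eq_max_of_norm_ne_norm (by rw [norm_neg]; exact hlt.ne')]
      rw [norm_neg, max_eq_left hlt.le]
    rw [Pool.Agent.Y83.TP.norm_eval_eq hf y _ h1, hdeg]
    have hy1 : 1 < ‖y‖ := hρ1.trans hy
    calc ‖y‖ = ‖y‖ ^ 1 := (pow_one _).symm
      _ < ‖y‖ ^ d := pow_lt_pow_right₀ hy1 (by omega)
  have hcrit : ∀ z ∈ (derivative f).roots, ‖f.eval z‖ ≤ ρ := by
    intro z hz
    by_contra hcon
    rw [not_le] at hcon
    have hbig : ∀ n : ℕ, ρ < ‖(fun u : U => f.eval u)^[n + 1] z‖ := by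
      intro n
      induction n with
      | zero =>
        simp only [zero_add, iterate_one]
        exact hcon
      | succ n ih =>
        rw [iterate_succ_apply']
        exact ih.trans (hgrow _ ih)
    have hmono : StrictMono fun n : ℕ => ‖(fun u : U => f.eval u)^[n + 1] z‖ := by
      apply strictMono_nat_of_lt_succ
      intro n
      rw [iterate_succ_apply' _ (n + 1)]
      exact hgrow _ (hbig n)
    have hinj : Function.Injective fun n : ℕ => (fun u : U => f.eval u)^[n + 1] z := by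
      intro a b hab
      apply hmono.injective
      exact congrArg norm hab
    apply Set.infinite_range_of_injective hinj
    apply (hP z ((hDmem z).1 hz)).subset
    rintro _ ⟨n, rfl⟩
    exact ⟨n + 1, rfl⟩
  have hρd : ρ < ρ ^ d := by
    calc ρ = ρ ^ 1 := (pow_one _).symm
      _ < ρ ^ d := pow_lt_pow_right₀ hρ1 (by omega)
  -- every critical point is close to a root
  have hclose : ∀ z ∈ (derivative f).roots, ∃ w ∈ f.roots, ‖z - w‖ < ρ := by
    intro z hz
    by_contra hcon
    push Not at hcon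
    have h1 : ∀ w ∈ f.roots, ‖z - w‖ = ρ := by
      intro w hw
      refine le_antisymm ?_ (hcon w hw)
      exact (norm_sub_le_max' z w).trans (max_le (hCr z hz) (hR w hw))
    have h2 := Pool.Agent.Y83.TP.norm_eval_eq hf z _ h1
    rw [hdeg] at h2
    have h3 := hcrit z hz
    rw [h2] at h3
    exact absurd hρd (not_lt.2 h3)
  have hdist : ∀ w ∈ f.roots, ∀ z : U, ‖z‖ ≤ ρ → ‖z - w‖ ≤ ρ := fun w hw z hz =>
    (norm_sub_le_max' z w).trans (max_le hz (hR w hw))
  -- numbers of roots and critical points in an open ball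
  have hcount : ∀ w ∈ f.roots,
      (Multiset.filter (fun z : U => ‖z - w‖ < ρ) (derivative f).roots).card + 1 ≤
        (Multiset.filter (fun z : U => ‖z - w‖ < ρ) f.roots).card := by
    intro w hw
    -- a slightly smaller closed ball
    obtain ⟨r', hr', hr'r, hall⟩ : ∃ r' : ℝ, 0 < r' ∧ r' < ρ ∧
        ∀ z ∈ f.roots.toFinset ∪ (derivative f).roots.toFinset, ‖z - w‖ < ρ → ‖z - w‖ ≤ r' := by
      obtain ⟨S, hS⟩ : ∃ S : Finset U, S = (f.roots.toFinset ∪ (derivative f).roots.toFinset).filter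
        (fun z => ‖z - w‖ < ρ) := ⟨_, rfl⟩
      have hzS : w ∈ S := by
        rw [hS, Finset.mem_filter, Finset.mem_union]
        exact ⟨Or.inl (Multiset.mem_toFinset.2 hw), by rw [sub_self, norm_zero]; exact hρ0⟩
      obtain ⟨z1, hz1, hmax⟩ := S.exists_max_image (fun z => ‖z - w‖) ⟨w, hzS⟩
      have hz1r : ‖z1 - w‖ < ρ := by
        rw [hS, Finset.mem_filter] at hz1
        exact hz1.2
      refine ⟨max ‖z1 - w‖ (ρ / 2), lt_max_of_lt_right (by linarith),
        max_lt hz1r (by linarith), ?_⟩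
      intro z hz hzr
      apply le_max_of_le_left
      apply hmax
      rw [hS, Finset.mem_filter]
      exact ⟨hz, hzr⟩
    have e1 : ∀ t : ℝ, r' ≤ t → t < ρ → Multiset.filter (fun z : U => ‖z - w‖ ≤ t) f.roots =
        Multiset.filter (fun z : U => ‖z - w‖ < ρ) f.roots := by
      intro t ht1 ht2
      apply Multiset.filter_congr
      intro z hz
      exact ⟨fun h => lt_of_le_of_lt h ht2, fun h =>
        (hall z (Finset.mem_union_left _ (Multiset.mem_toFinset.2 hz)) h).trans ht1⟩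
    have e2 : Multiset.filter (fun z : U => ‖z - w‖ < ρ) (derivative f).roots =
        Multiset.filter (fun z : U => ‖z - w‖ ≤ r') (derivative f).roots := by
      apply Multiset.filter_congr
      intro z hz
      exact ⟨fun h => hall z (Finset.mem_union_right _ (Multiset.mem_toFinset.2 hz)) h,
        fun h => lt_of_le_of_lt h hr'r⟩
    obtain ⟨N, hN⟩ : ∃ N, N = (Multiset.filter (fun z : U => ‖z - w‖ < ρ) f.roots).card :=
      ⟨_, rfl⟩
    obtain ⟨M, hM⟩ : ∃ M, M = (Multiset.filter (fun z : U => ‖z - w‖ < ρ)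
      (derivative f).roots).card := ⟨_, rfl⟩
    rw [← hN, ← hM]
    have hN1 : 1 ≤ N := by
      rw [hN]
      refine Multiset.card_pos_iff_exists_mem.2 ⟨w, Multiset.mem_filter.2 ⟨hw, ?_⟩⟩
      rw [sub_self, norm_zero]; exact hρ0
    have hNd : N ≤ d := by
      rw [hN, ← hcard]
      exact Multiset.card_le_card (Multiset.filter_le _ _)
    have hgd : (f.comp (X + C w)).coeff d = 1 := by
      have h1 : (f.comp (X + C w)).Monic := hf.comp_X_add_C w
      have h2 : (f.comp (X + C w)).natDegree = d := by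
        rw [natDegree_comp, natDegree_X_add_C, mul_one, hdeg]
      rw [← h2]; exact h1.coeff_natDegree
    -- the coefficient of index N
    have hgN : ρ ^ (d - N) ≤ ‖(f.comp (X + C w)).coeff N‖ := by
      by_contra hcon
      rw [not_le] at hcon
      have ev1 : ∀ᶠ t in nhds ρ, ‖(f.comp (X + C w)).coeff N‖ < t ^ (d - N) :=
        (continuous_pow (d - N)).continuousAt.eventually (lt_mem_nhds hcon)
      have ev2 : ∀ᶠ t in nhds ρ, r' < t := lt_mem_nhds hr'r
      have ev3 := ((ev1.and ev2).filter_mono (nhdsWithin_le_nhds (s := Set.Iio ρ))).and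
        self_mem_nhdsWithin
      obtain ⟨t, ⟨ht1, ht2⟩, ht3⟩ := ev3.exists
      have ht0 : 0 < t := hr'.trans ht2
      have h1 := TopI.of_roots ht0 w hf0
      rw [e1 t ht2.le ht3, ← hN] at h1
      have h2 := h1.2.1 d
      unfold wt at h2
      rw [hgd, norm_one, one_mul] at h2
      have h3 : t ^ d = t ^ (d - N) * t ^ N := by rw [← pow_add]; congr 1; omega
      rw [h3] at h2
      have h4 := le_of_mul_le_mul_right h2 (pow_pos ht0 N)
      exact absurd ht1 (not_lt.2 h4)
    -- weights of the derivative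
    have hDd : ((derivative f).comp (X + C w)).coeff (d - 1) = (d : U) := by
      have h1 : (derivative f).comp (X + C w) = derivative (f.comp (X + C w)) := by
        rw [derivative_comp]; simp
      rw [h1, coeff_derivative, Nat.sub_add_cancel (by omega : 1 ≤ d), hgd, one_mul]
      have h2 : ((d - 1 : ℕ) : U) + 1 = (d : U) := by
        rw [← Nat.cast_succ]
        congr 1
        omega
      exact h2
    have hDw : ∀ m, wt ρ ((derivative f).comp (X + C w)) m ≤ ‖(d : U)‖ * ρ ^ (d - 1) := by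
      have h1 := TopI.of_roots hρ0 w hD0
      have h2 : Multiset.filter (fun z : U => ‖z - w‖ ≤ ρ) (derivative f).roots =
          (derivative f).roots := by
        rw [Multiset.filter_eq_self]
        intro z hz
        exact hdist w hw z (hCr z hz)
      rw [h2, hDcard] at h1
      intro m
      have h3 := h1.2.1 m
      unfold wt at h3 ⊢
      rw [hDd] at h3
      exact h3
    have hDN : ((derivative f).comp (X + C w)).coeff (N - 1) =
        (f.comp (X + C w)).coeff N * (N : U) := by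
      have h1 : (derivative f).comp (X + C w) = derivative (f.comp (X + C w)) := by
        rw [derivative_comp]; simp
      rw [h1, coeff_derivative, Nat.sub_add_cancel hN1]
      have h2 : ((N - 1 : ℕ) : U) + 1 = (N : U) := by
        rw [← Nat.cast_succ]
        congr 1
        omega
      rw [h2]
    have hpd : ρ ^ (d - N) * ρ ^ (N - 1) = ρ ^ (d - 1) := by
      rw [← pow_add]; congr 1; omega
    have hnorm : ‖(N : U)‖ ≤ ‖(d : U)‖ := by
      have h1 := hDw (N - 1)
      unfold wt at h1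
      rw [hDN, norm_mul] at h1
      have h2 : ρ ^ (d - N) * ‖(N : U)‖ * ρ ^ (N - 1) ≤
          ‖(f.comp (X + C w)).coeff N‖ * ‖(N : U)‖ * ρ ^ (N - 1) := by
        gcongr
      have h3 : ρ ^ (d - N) * ‖(N : U)‖ * ρ ^ (N - 1) = ‖(N : U)‖ * ρ ^ (d - 1) := by
        rw [← hpd]; ring
      rw [h3] at h2
      exact le_of_mul_le_mul_right (h2.trans h1) (pow_pos hρ0 _)
    have hnorm' : ‖(N : U)‖ = ‖(d : U)‖ := by
      rw [hd] at hnorm hNd ⊢
      exact norm_nat_eq hp hlt hc hcp hN1 hNd hnorm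
    have hdpos : 0 < ‖(d : U)‖ := norm_pos_iff.2 (by exact_mod_cast (by omega : d ≠ 0))
    -- the index N - 1 has maximal weight at radius ρ
    have hmaxw : ∀ m, wt ρ ((derivative f).comp (X + C w)) m ≤
        wt ρ ((derivative f).comp (X + C w)) (N - 1) := by
      intro m
      refine (hDw m).trans ?_
      unfold wt
      rw [hDN, norm_mul, hnorm']
      calc ‖(d : U)‖ * ρ ^ (d - 1) = ρ ^ (d - N) * ‖(d : U)‖ * ρ ^ (N - 1) := by
            rw [← hpd]; ring
        _ ≤ _ := by gcongr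
    have hposw : 0 < wt ρ ((derivative f).comp (X + C w)) (N - 1) := by
      refine lt_of_lt_of_le ?_ (hmaxw (d - 1))
      unfold wt
      rw [hDd]
      positivity
    by_contra hcon
    have hMN : N - 1 < M := by omega
    have h1 := TopI.of_roots hr' w hD0
    rw [← e2, ← hM] at h1
    have h2 := h1.2.1 (N - 1)
    have h3 := hmaxw M
    unfold wt at h2 h3 hposw
    -- scale from ρ to r'
    have h4 : ‖((derivative f).comp (X + C w)).coeff M‖ * r' ^ M <
        ‖((derivative f).comp (X + C w)).coeff (N - 1)‖ * r' ^ (N - 1) := by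
      have q0 : 0 < r' / ρ := div_pos hr' hρ0
      have q1 : r' / ρ < 1 := (div_lt_one hρ0).2 hr'r
      have hs : ∀ m, r' ^ m = ρ ^ m * (r' / ρ) ^ m := by
        intro m
        rw [← mul_pow, mul_div_cancel₀ _ hρ0.ne']
      rw [hs M, hs (N - 1), ← mul_assoc, ← mul_assoc]
      calc _ ≤ ‖((derivative f).comp (X + C w)).coeff (N - 1)‖ * ρ ^ (N - 1) * (r' / ρ) ^ M :=
            mul_le_mul_of_nonneg_right h3 (by positivity)
        _ < _ := mul_lt_mul_of_pos_left (pow_lt_pow_right_of_lt_one₀ q0 q1 hMN) hposw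
    exact absurd h4 (not_lt.2 h2)
  -- sum over the classes
  obtain ⟨T, hT⟩ : ∃ T : Finset (Set U), T = (f.roots.map (cl ρ)).toFinset := ⟨_, rfl⟩
  have hcl : ∀ (S : Multiset U), (∀ z ∈ S, ‖z‖ ≤ ρ) → ∀ z0 : U, ‖z0‖ ≤ ρ →
      (S.map (cl ρ)).count (cl ρ z0) = (S.filter (fun z : U => ‖z - z0‖ < ρ)).card := by
    intro S hS z0 hz0
    have h1 := count_cl hρ0 0 z0 (by rw [sub_zero]; exact hz0) S
    have h2 : S.filter (fun z : U => ‖z - 0‖ ≤ ρ) = S := by
      rw [Multiset.filter_eq_self]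
      intro z hz
      rw [sub_zero]; exact hS z hz
    rw [h2] at h1
    exact h1
  have hcov : ∀ t ∈ (derivative f).roots.map (cl ρ), t ∈ T := by
    intro t ht
    rw [Multiset.mem_map] at ht
    obtain ⟨z, hz, rfl⟩ := ht
    obtain ⟨w, hw, hzw⟩ := hclose z hz
    rw [(cl_eq_iff hρ0 z w).2 hzw, hT, Multiset.mem_toFinset, Multiset.mem_map]
    exact ⟨w, hw, rfl⟩
  have s1 : ∑ t ∈ T, (f.roots.map (cl ρ)).count t = d := by
    rw [Multiset.sum_count_eq_card, Multiset.card_map, hcard]
    intro t ht'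
    rw [hT, Multiset.mem_toFinset]
    exact ht'
  have s2 : ∑ t ∈ T, ((derivative f).roots.map (cl ρ)).count t = d - 1 := by
    rw [Multiset.sum_count_eq_card hcov, Multiset.card_map, hDcard]
  have s3 : ∀ t ∈ T, ((derivative f).roots.map (cl ρ)).count t + 1 ≤
      (f.roots.map (cl ρ)).count t := by
    intro t ht'
    rw [hT, Multiset.mem_toFinset, Multiset.mem_map] at ht'
    obtain ⟨z0, hz0, rfl⟩ := ht'
    rw [hcl _ hCr z0 (hR z0 hz0), hcl _ hR z0 (hR z0 hz0)]
    exact hcount z0 hz0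
  have s4 := Finset.sum_le_sum s3
  rw [Finset.sum_add_distrib, s1, s2, Finset.sum_const, smul_eq_mul, mul_one] at s4
  have hT1 : T.card ≤ 1 := by omega
  have h0T : cl ρ (0 : U) ∈ T := by
    rw [hT, Multiset.mem_toFinset, Multiset.mem_map]
    exact ⟨0, h0mem, rfl⟩
  have hall : ∀ z : U, cl ρ z ∈ T → ‖z‖ < ρ := by
    intro z hz
    have h1 := Finset.card_le_one.1 hT1 _ hz _ h0T
    rw [cl_eq_iff hρ0, sub_zero] at h1
    exact h1
  rw [Finset.mem_union, Multiset.mem_toFinset, Multiset.mem_toFinset] at hz1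
  rcases hz1 with hz1 | hz1
  · have h1 := hall z1 (by
      rw [hT, Multiset.mem_toFinset, Multiset.mem_map]
      exact ⟨z1, hz1, rfl⟩)
    rw [← hρ] at h1
    exact lt_irrefl _ h1
  · have h1 := hall z1 (hcov _ (Multiset.mem_map.2 ⟨z1, hz1, rfl⟩))
    rw [← hρ] at h1
    exact lt_irrefl _ h1

end Pool.Agent.Y19.TP
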