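import Pool.Agent.Y19.TP.Stm

set_option autoImplicit false

/-!
# Project TP, fourth part: degrees `c p ^ s`, and infinitely many classes when `p < d`, `p ∤ d`
-/

namespace Pool.Agent.Y19.TP

open Polynomial Function

/-- Part INTC (integrality in degree `c * p ^ s`, `c < p`). -/
def INTC : Prop := ∀ (U : Type) [NormedField U] [IsUltrametricDist U] [IsAlgClosed U] [CharZero U]
  (p s c : ℕ), p.Prime → 1 ≤ c → c < p → 2 ≤ c * p ^ s → ‖(p : U)‖ < 1 →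
  ∀ f : U[X], f.Monic → f.natDegree = c * p ^ s → f.coeff 0 = 0 → IsPCF f →
  ∀ i, ‖f.coeff i‖ ≤ 1

/-- The polynomial of degree `d` with `B(0) = 0` (order `m`), `B(1) = 1` and critical points only
`0` and `1` (tail of the Bernstein polynomials). -/
noncomputable def bern (K : Type) [Field K] (d m : ℕ) : K[X] :=
  ∑ j ∈ Finset.Icc m d, C ((d.choose j : ℕ) : K) * X ^ j * (1 - X) ^ (d - j)

/-- Part BERN (algebra). -/
def BERN : Prop := ∀ (K : Type) [Field K] [CharZero K] (d m : ℕ), 1 ≤ m → m ≤ d →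
  derivative (bern K d m) = C ((m * d.choose m : ℕ) : K) * X ^ (m - 1) * (1 - X) ^ (d - m) ∧
  (bern K d m).eval 0 = 0 ∧ (bern K d m).eval 1 = 1 ∧ (bern K d m).natDegree = d ∧
  (bern K d m).coeff m = ((d.choose m : ℕ) : K) ∧ (∀ i < m, (bern K d m).coeff i = 0) ∧
  (bern K d m).leadingCoeff = (-1) ^ (d - m) * (((d - 1).choose (m - 1) : ℕ) : K)

/-- The family `v B(z)`. -/
noncomputable def fam2 (K : Type) [Field K] (d m : ℕ) (v : K) : K[X] := C v * bern K d m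

/-- Part INFKB (`p`-adic dynamics), from `BERN`. -/
def INFKB : Prop := ∀ (p : ℕ) [Fact p.Prime] (d : ℕ), p < d → ¬ p ∣ d →
  ∃ K : IntermediateField ℚ_[p] (PadicAlgCl p), FiniteDimensional ℚ_[p] K ∧
    Module.finrank ℚ_[p] K ≤ d % p ∧ ∀ n : ℕ, 1 ≤ n →
    ∃ v ∈ K, 1 < ‖v‖ ∧
      (fun z => (fam2 (PadicAlgCl p) d (d - d % p) v).eval z)^[n + 1] v = 0 ∧
      ∀ i : ℕ, i ≤ n → (fun z => (fam2 (PadicAlgCl p) d (d - d % p) v).eval z)^[i] v ≠ 0

/-- Part INFKA (algebra), from `BERN` and `INFKB`. -/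
def INFKA : Prop := ∀ (p : ℕ) [Fact p.Prime] (d : ℕ), p < d → ¬ p ∣ d →
  ∃ K : IntermediateField ℚ_[p] (PadicAlgCl p), FiniteDimensional ℚ_[p] K ∧
    Module.finrank ℚ_[p] K ≤ d % p ∧
  ∃ W : Set (PadicAlgCl p), W.Infinite ∧ (∀ v ∈ W, v ∈ K) ∧
    (∀ v ∈ W, (fam2 (PadicAlgCl p) d (d - d % p) v).natDegree = d ∧
      IsPCF (fam2 (PadicAlgCl p) d (d - d % p) v)) ∧
    ∀ v ∈ W, ∀ v' ∈ W, AffConj (fam2 (PadicAlgCl p) d (d - d % p) v)
      (fam2 (PadicAlgCl p) d (d - d % p) v') → v = v'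

end Pool.Agent.Y19.TP
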