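import Pool.Agent.Y19.TP.Stm

set_option autoImplicit false

/-!
# Project TP, second part: all primes `p`, potentially good reduction, and degrees `p ^ k`
-/

namespace Pool.Agent.Y19.TP

open Polynomial Function

/-- Lower bound for the norms of the integers `1, ..., d`. -/
def Low (U : Type) [NormedField U] (d : ℕ) (κ : ℝ) : Prop :=
  0 < κ ∧ κ ≤ 1 ∧ ∀ m : ℕ, 1 ≤ m → m ≤ d → κ ≤ ‖(m : U)‖

/-- Job ROLLEW (Rolle theorem with a constant, any residue characteristic). -/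
def ROLLEW : Prop := ∀ (U : Type) [NormedField U] [IsUltrametricDist U] [IsAlgClosed U]
  [CharZero U] (d : ℕ), 1 ≤ d → ∀ κ : ℝ, Low U d κ → ∀ f : U[X], f.natDegree = d →
  ∀ w x : U, w ≠ x → f.eval w = 0 → f.eval x = 0 →
  ∃ c : U, (derivative f).eval c = 0 ∧ κ ^ (2 * d) * ‖c - w‖ ≤ ‖x - w‖ ∧ f.eval c ≠ 0

/-- Job DISCW, to be deduced from `ROLLEW`. -/
def DISCW : Prop := ∀ (U : Type) [NormedField U] [IsUltrametricDist U] [IsAlgClosed U]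
  [CharZero U] (d : ℕ), 2 ≤ d → ∀ κ : ℝ, Low U d κ → ∀ f : U[X], f.Monic → f.natDegree = d →
  (∀ i, ‖f.coeff i‖ ≤ 1) → IsPCF f → ∀ w : U, ‖w‖ ≤ 1 →
  w ∈ periodicPts (fun z : U => f.eval z) →
  ∀ x : U, ‖x - w‖ ≤ κ ^ (8 * d) / 2 → f.eval x = f.eval w → x = w

/-- Job TAILW, to be deduced from `DISCW`. -/
def TAILW : Prop := ∀ (U : Type) [NormedField U] [IsUltrametricDist U] [IsAlgClosed U]
  [CharZero U] (d : ℕ), 2 ≤ d → ∀ κ : ℝ, Low U d κ → ∀ f : U[X], f.Monic → f.natDegree = d →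
  ∀ (A : Subring U), (∀ a ∈ A, ‖a‖ ≤ 1) → (∀ i, f.coeff i ∈ A) →
  (∀ c : U, (derivative f).eval c = 0 → c ∈ A) → IsPCF f →
  ∀ ρ : ℝ, 0 < ρ → ρ < 1 → (∀ a ∈ A, ‖a‖ < 1 → ‖a‖ ≤ ρ) → ∀ M : ℕ, Pig A ρ M →
  ∀ E : ℕ, ρ ^ E ≤ κ ^ (8 * d) / 2 → ∀ c : U, (derivative f).eval c = 0 →
    (fun z : U => f.eval z)^[M + M * (E + 1)] c ∈ periodicPts (fun z : U => f.eval z)

/-- Job DSC (discreteness of the norm on finite extensions). -/
def DSC : Prop := ∀ (p : ℕ) [Fact p.Prime] (L : IntermediateField ℚ_[p] (PadicAlgCl p))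
  (n : ℕ), FiniteDimensional ℚ_[p] L → Module.finrank ℚ_[p] L ≤ n →
  ∀ a ∈ L, ‖a‖ < 1 → ‖a‖ ^ n ≤ ‖(p : PadicAlgCl p)‖

/-- Job ISO (all these fields are isomorphic). -/
def ISO : Prop := ∀ (p q : ℕ) [Fact p.Prime] [Fact q.Prime],
  Nonempty (PadicAlgCl p ≃+* PadicAlgCl q)

/-- Job VART, from `VAR` and `ISO`. -/
def VART : Prop := ∀ (p : ℕ) [Fact p.Prime] (d : ℕ), 2 ≤ d → ∀ (T N : ℕ), 1 ≤ N →
  {f : (PadicAlgCl p)[X] | f.Monic ∧ f.natDegree = d ∧ f.coeff 1 = 0 ∧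
    ∀ c : PadicAlgCl p, (derivative f).eval c = 0 →
      (fun z => f.eval z)^[T + N] c = (fun z => f.eval z)^[T] c}.Finite

/-- Job INTW (integrality in degree `p ^ k`). -/
def INTW : Prop := ∀ (U : Type) [NormedField U] [IsUltrametricDist U] [IsAlgClosed U] [CharZero U]
  (p k : ℕ), p.Prime → 1 ≤ k → ‖(p : U)‖ < 1 → ∀ f : U[X], f.Monic → f.natDegree = p ^ k →
  f.coeff 1 = 0 → IsPCF f → ∀ i, ‖f.coeff i‖ ≤ 1

/-- Job FLDW (field of definition of bounded degree). -/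
def FLDW : Prop := ∀ (p : ℕ) [Fact p.Prime] (n d : ℕ), 2 ≤ d →
  ∀ (K : IntermediateField ℚ_[p] (PadicAlgCl p)), FiniteDimensional ℚ_[p] K →
  Module.finrank ℚ_[p] K ≤ n → ∀ g : (PadicAlgCl p)[X], g.Monic → g.natDegree = d →
  g.coeff 1 = 0 → (∀ σ : PadicAlgCl p ≃ₐ[K] PadicAlgCl p,
    AffConj (g.map (σ.toRingEquiv : PadicAlgCl p →+* PadicAlgCl p)) g) →
  ∃ L : IntermediateField ℚ_[p] (PadicAlgCl p), FiniteDimensional ℚ_[p] L ∧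
    Module.finrank ℚ_[p] L ≤ n * ((d ^ 2) ^ d * d ^ d) ∧ (∀ i, g.coeff i ∈ L) ∧
    (∀ c : PadicAlgCl p, (derivative g).eval c = 0 → c ∈ L)

end Pool.Agent.Y19.TP
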