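import Pool.Agent.Y19.TP.Stm

set_option autoImplicit false

/-!
# Assembly of project TP: tame postcritically finite polynomials over finite extensions of `ℚ_p`
-/

namespace Pool.Agent.Y19.TP

open Polynomial

lemma affConj_symm {K : Type} [Field K] {f g : K[X]} (h : AffConj f g) : AffConj g f := by
  obtain ⟨a, b, ha, h⟩ := h
  refine ⟨a⁻¹, -(a⁻¹ * b), inv_ne_zero ha, ?_⟩
  have h1 : (C a * X + C b : K[X]).comp (C a⁻¹ * X + C (-(a⁻¹ * b))) = X := by
    have e : (C a * C a⁻¹ : K[X]) = 1 := by rw [← C_mul, mul_inv_cancel₀ ha, C_1]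
    simp only [add_comp, mul_comp, C_comp, X_comp, map_neg, map_mul]
    linear_combination (X - C b) * e
  have h2 := congrArg (fun P : K[X] => P.comp (C a⁻¹ * X + C (-(a⁻¹ * b)))) h
  simp only [comp_assoc, h1, comp_X, add_comp, mul_comp, C_comp] at h2
  have e : (C a⁻¹ * C a : K[X]) = 1 := by rw [← C_mul, inv_mul_cancel₀ ha, C_1]
  rw [h2]
  simp only [map_neg, map_mul]
  linear_combination (-(g.comp (C a⁻¹ * X + -(C a⁻¹ * C b)))) * e

lemma affConj_trans {K : Type} [Field K] {f g h : K[X]} (h1 : AffConj f g) (h2 : AffConj g h) :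
    AffConj f h := by
  obtain ⟨a, b, ha, h1⟩ := h1
  obtain ⟨a', b', ha', h2⟩ := h2
  refine ⟨a * a', a * b' + b, mul_ne_zero ha ha', ?_⟩
  have e : (C (a * a') * X + C (a * b' + b) : K[X]) =
      (C a * X + C b : K[X]).comp (C a' * X + C b') := by
    simp only [add_comp, mul_comp, C_comp, X_comp, map_add, map_mul]; ring
  rw [e, ← comp_assoc, h1, add_comp, mul_comp, C_comp, C_comp, h2]
  simp only [map_add, map_mul]; ring

lemma affConj_map {K : Type} [Field K] {f g : K[X]} (σ : K →+* K) (h : AffConj f g) :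
    AffConj (f.map σ) (g.map σ) := by
  obtain ⟨a, b, ha, h⟩ := h
  refine ⟨σ a, σ b, (map_ne_zero_iff _ σ.injective).2 ha, ?_⟩
  have h2 := congrArg (Polynomial.map σ) h
  simpa [Polynomial.map_comp] using h2

/-- Postcritical finiteness is invariant under conjugacy. -/
lemma isPCF_of_affConj {K : Type} [Field K] {f g : K[X]} (h : AffConj f g) (hf : IsPCF f) :
    IsPCF g := by
  obtain ⟨a, b, ha, h⟩ := h
  intro z hz
  have hev : ∀ w : K, f.eval (a * w + b) = a * g.eval w + b := by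
    intro w
    have := congrArg (eval w) h
    simpa [eval_comp] using this
  have hcrit : (derivative f).eval (a * z + b) = 0 := by
    have h1 := congrArg (fun P : K[X] => (derivative P).eval z) h
    simp only [derivative_comp, derivative_add, derivative_mul, derivative_C, derivative_X,
      eval_add, eval_mul, eval_comp, eval_C, eval_X, hz, eval_zero, eval_one] at h1
    have h2 : a * (derivative f).eval (a * z + b) = 0 := by linear_combination h1
    exact (mul_eq_zero.1 h2).resolve_left ha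
  have hfin := hf _ hcrit
  have hiter : ∀ n : ℕ, (fun w : K => f.eval w)^[n] (a * z + b) =
      a * (fun w : K => g.eval w)^[n] z + b := by
    intro n
    induction n with
    | zero => rfl
    | succ n ih =>
      rw [Function.iterate_succ_apply', Function.iterate_succ_apply', ih]
      exact hev _
  have hinj : Function.Injective fun w : K => a * w + b := by
    intro x y hxy
    exact mul_left_cancel₀ ha (add_right_cancel hxy)
  refine Set.Finite.of_finite_image (f := fun w : K => a * w + b) (hfin.subset ?_)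
    hinj.injOn
  rintro _ ⟨_, ⟨n, rfl⟩, rfl⟩
  exact ⟨n, hiter n⟩

section

variable (p : ℕ) [hp : Fact p.Prime]

lemma norm_nat (m : ℕ) : ‖(m : PadicAlgCl p)‖ = ‖(m : ℚ_[p])‖ := by
  have h := PadicAlgCl.norm_extends p (m : ℚ_[p])
  rw [← h]
  congr 1

lemma tame (d : ℕ) (hd : d < p) : Tame (PadicAlgCl p) d := by
  intro m h1 h2
  rw [norm_nat]
  have h3 : ¬ (p : ℤ) ∣ (m : ℤ) := by
    intro h
    have h4 : p ∣ m := by exact_mod_cast h
    exact absurd (Nat.le_of_dvd (by omega) h4) (by omega)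
  have h5 : ‖((m : ℤ) : ℚ_[p])‖ = 1 := by
    refine le_antisymm (Padic.norm_int_le_one _) (not_lt.1 fun h => h3 ?_)
    exact (Padic.norm_intCast_lt_one_iff.1 h)
  simpa using h5

lemma norm_p_lt : ‖(p : PadicAlgCl p)‖ < 1 := by
  rw [norm_nat, Padic.norm_p]
  exact inv_lt_one_of_one_lt₀ (by exact_mod_cast hp.out.one_lt)

lemma norm_p_pos : 0 < ‖(p : PadicAlgCl p)‖ := by
  rw [norm_nat, Padic.norm_p]
  exact inv_pos.2 (by exact_mod_cast hp.out.pos)

lemma unbdd (C : ℝ) : ∃ y : PadicAlgCl p, C < ‖y‖ := by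
  obtain ⟨n, hn⟩ := pow_unbounded_of_one_lt C
    ((one_lt_inv₀ (norm_p_pos p)).2 (norm_p_lt p))
  refine ⟨((p : PadicAlgCl p)⁻¹) ^ n, ?_⟩
  rw [norm_pow, norm_inv]
  exact hn

/-- The integers of an intermediate field. -/
def ints (L : IntermediateField ℚ_[p] (PadicAlgCl p)) : Subring (PadicAlgCl p) where
  carrier := {x | x ∈ L ∧ ‖x‖ ≤ 1}
  mul_mem' := by
    rintro a b ⟨h1, h2⟩ ⟨h3, h4⟩
    exact ⟨L.mul_mem h1 h3, by rw [norm_mul]; exact mul_le_one₀ h2 (norm_nonneg _) h4⟩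
  one_mem' := ⟨L.one_mem, by simp⟩
  add_mem' := by
    rintro a b ⟨h1, h2⟩ ⟨h3, h4⟩
    exact ⟨L.add_mem h1 h3, (IsUltrametricDist.norm_add_le_max _ _).trans (max_le h2 h4)⟩
  zero_mem' := ⟨L.zero_mem, by simp⟩
  neg_mem' := by
    rintro a ⟨h1, h2⟩
    exact ⟨L.neg_mem h1, by rw [norm_neg]; exact h2⟩

lemma pig (hPIG : PIG) (L : IntermediateField ℚ_[p] (PadicAlgCl p)) (n k : ℕ)
    (hL : FiniteDimensional ℚ_[p] L) (hn : Module.finrank ℚ_[p] L ≤ n) :
    Pig (ints p L) (‖(p : PadicAlgCl p)‖ ^ k) (p ^ (n * k)) :=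
  fun g hg => hPIG p L n k hL hn g hg

/-- All monic centred representatives satisfy the same relations. -/
theorem key (hTAIL : TAIL) (hPER : PER) (hINT : INT) (hPIG : PIG) (hFLD : FLD) (d : ℕ)
    (hd : 2 ≤ d) (hdp : d < p) (K : IntermediateField ℚ_[p] (PadicAlgCl p))
    (hK : FiniteDimensional ℚ_[p] K) (n : ℕ) (hn : Module.finrank ℚ_[p] K ≤ n)
    (g : (PadicAlgCl p)[X]) (h1 : g.Monic) (h2 : g.natDegree = d) (h3 : g.coeff (d - 1) = 0)
    (hg : IsPCF g) (hgK : ∀ i, g.coeff i ^ (d - 1) ∈ K) (c : PadicAlgCl p)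
    (hc : (derivative g).eval c = 0) :
    (fun z => g.eval z)^[p ^ (n * (d ^ d * d ^ d) * 1) +
        (p ^ (n * (d ^ d * d ^ d) * 2)).factorial * (p ^ (n * (d ^ d * d ^ d) * 2)).factorial] c =
      (fun z => g.eval z)^[p ^ (n * (d ^ d * d ^ d) * 1)] c := by
  obtain ⟨hi1, hi2⟩ := hINT (PadicAlgCl p) d hd (tame p d hdp) g h1 h2 h3 hg
  have hder : derivative g ≠ 0 := by
    intro h
    have := natDegree_eq_zero_of_derivative_eq_zero h
    omega
  obtain ⟨L, hKL, hLf, hLn, hL1, hL2⟩ := hFLD ℚ_[p] (PadicAlgCl p) n d hd K hK hn g h1 h2 hder hgK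
  have hA : ∀ a ∈ ints p L, ‖a‖ ≤ 1 := fun a ha => ha.2
  have hcoef : ∀ i, g.coeff i ∈ ints p L := fun i => ⟨hL1 i, hi1 i⟩
  have hcr : ∀ c : PadicAlgCl p, (derivative g).eval c = 0 → c ∈ ints p L :=
    fun c hc => ⟨hL2 c hc, hi2 c hc⟩
  have hP1 := pig p hPIG L _ 1 hLf hLn
  have hP2 := pig p hPIG L _ 2 hLf hLn
  have hT := hTAIL (PadicAlgCl p) d hd (tame p d hdp) g h1 h2 (ints p L) hA hcoef hcr hg _
    (by rw [pow_one]; exact norm_p_lt p) _ hP1 c hc
  have hmem : ∀ m : ℕ, (fun z => g.eval z)^[m] c ∈ ints p L := by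
    intro m
    induction m with
    | zero => exact hcr c hc
    | succ m ih =>
      rw [Function.iterate_succ_apply']
      change g.eval _ ∈ ints p L
      rw [eval_eq_sum]
      exact Subring.sum_mem _ fun i _ => Subring.mul_mem _ (hcoef i) (Subring.pow_mem _ ih i)
  have hN := hPER p (PadicAlgCl p) (norm_p_lt p) (ints p L) hA (‖(p : PadicAlgCl p)‖ ^ 2)
    (by
      rw [pow_two]
      exact mul_lt_of_lt_one_left (norm_p_pos p) (norm_p_lt p)) _ hP2 g hcoef _ (hmem _) hT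
  rw [Nat.add_comm, Function.iterate_add_apply]
  exact hN

/-- There is a finite set of polynomials that represents all Galois invariant classes of
postcritically finite polynomials. -/
theorem asm (hTAIL : TAIL) (hPER : PER) (hINT : INT) (hPIG : PIG) (hFLD : FLD) (hNORM : NORM)
    (hRIG : RIG) (hVAR : VAR) (d : ℕ) (hd : 2 ≤ d) (hdp : d < p)
    (K : IntermediateField ℚ_[p] (PadicAlgCl p)) (hK : FiniteDimensional ℚ_[p] K) :
    ∃ V : Set (PadicAlgCl p)[X], V.Finite ∧ ∀ f : (PadicAlgCl p)[X], f.natDegree = d → IsPCF f →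
      (∀ σ : PadicAlgCl p ≃ₐ[K] PadicAlgCl p,
        AffConj (f.map (σ.toRingEquiv : PadicAlgCl p →+* PadicAlgCl p)) f) →
      ∃ g ∈ V, g.natDegree = d ∧ AffConj f g := by
  set n := Module.finrank ℚ_[p] K with hn
  refine ⟨_, hVAR (PadicAlgCl p) d hd (tame p d hdp) (unbdd p) (p ^ (n * (d ^ d * d ^ d) * 1))
    ((p ^ (n * (d ^ d * d ^ d) * 2)).factorial * (p ^ (n * (d ^ d * d ^ d) * 2)).factorial)
    (Nat.mul_pos (Nat.factorial_pos _) (Nat.factorial_pos _)), ?_⟩
  intro f hf hfP hσ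
  obtain ⟨g, hfg, h1, h2, h3⟩ := hNORM (PadicAlgCl p) d hd f hf
  refine ⟨g, ⟨h1, h2, h3, ?_⟩, h2, hfg⟩
  refine key p hTAIL hPER hINT hPIG hFLD d hd hdp K hK n le_rfl g h1 h2 h3
    (isPCF_of_affConj hfg hfP) ?_
  intro i
  -- the powers of the coefficients are fixed
  have hfix : ∀ σ : PadicAlgCl p ≃ₐ[K] PadicAlgCl p,
      σ (g.coeff i ^ (d - 1)) = g.coeff i ^ (d - 1) := by
    intro σ
    have e1 : AffConj (g.map (σ.toRingEquiv : PadicAlgCl p →+* PadicAlgCl p)) g :=
      affConj_trans (affConj_map _ (affConj_symm hfg)) (affConj_trans (hσ σ) hfg)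
    have e2 := hRIG (PadicAlgCl p) d hd _ g
      (h1.map (σ.toRingEquiv : PadicAlgCl p →+* PadicAlgCl p))
      (by rw [natDegree_map]; exact h2) (by rw [coeff_map, h3, map_zero]) h1 h2 h3 e1 i
    rw [coeff_map] at e2
    rw [map_pow]
    exact e2
  have hgal : IsGalois K (PadicAlgCl p) := by infer_instance
  obtain ⟨y, hy⟩ := (InfiniteGalois.mem_range_algebraMap_iff_fixed (g.coeff i ^ (d - 1))).2 hfix
  rw [← hy]
  exact y.2

end

end Pool.Agent.Y19.TP
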