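import Pool.Agent.Y19.TP.Asm
import Pool.Agent.Y19.TP.Stm2

set_option autoImplicit false

/-!
# Assembly of project TP, second part
-/

namespace Pool.Agent.Y19.TP

open Polynomial

/-- Moving a critical point to the origin. -/
lemma shift {U : Type} [Field U] [CharZero U] (d : ℕ) (hd : 2 ≤ d) (h : U[X]) (h1 : h.Monic)
    (h2 : h.natDegree = d) (c : U) (hc : (derivative h).eval c = 0) :
    (h.comp (X + C c) - C c).Monic ∧ (h.comp (X + C c) - C c).natDegree = d ∧
      (h.comp (X + C c) - C c).coeff 1 = 0 ∧ AffConj h (h.comp (X + C c) - C c) := by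
  have m1 : (h.comp (X + C c)).Monic := h1.comp_X_add_C c
  have n1 : (h.comp (X + C c)).natDegree = d := by
    rw [natDegree_comp, natDegree_X_add_C, mul_one, h2]
  have hdeg : (C c : U[X]).degree < (h.comp (X + C c)).degree := by
    refine lt_of_le_of_lt degree_C_le ?_
    rw [degree_eq_natDegree m1.ne_zero, n1]
    exact_mod_cast (by omega : 0 < d)
  refine ⟨m1.sub_of_left hdeg, ?_, ?_, ?_⟩
  · rw [natDegree_sub_C, n1]
  · have e : (h.comp (X + C c) - C c).coeff 1 =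
        (derivative (h.comp (X + C c) - C c)).eval 0 := by
      rw [← coeff_zero_eq_eval_zero, coeff_derivative]
      simp
    rw [e]
    simp only [derivative_sub, derivative_comp, derivative_C, derivative_add, derivative_X,
      eval_sub, eval_mul, eval_comp, eval_add, eval_X, eval_C, eval_zero, eval_one, zero_add,
      sub_zero, add_zero, mul_one, one_mul]
    simpa using hc
  · refine ⟨1, c, one_ne_zero, ?_⟩
    simp

/-- The closed unit ball as a subring. -/
def ball (U : Type) [NormedField U] [IsUltrametricDist U] : Subring U where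
  carrier := {x | ‖x‖ ≤ 1}
  mul_mem' := by
    intro a b h2 h4
    change ‖a * b‖ ≤ 1
    rw [norm_mul]; exact mul_le_one₀ h2 (norm_nonneg _) h4
  one_mem' := by simp
  add_mem' := by
    intro a b h2 h4
    exact (IsUltrametricDist.norm_add_le_max _ _).trans (max_le h2 h4)
  zero_mem' := by simp
  neg_mem' := by
    intro a h2
    change ‖-a‖ ≤ 1
    rw [norm_neg]; exact h2

lemma shift_integral {U : Type} [NormedField U] [IsUltrametricDist U] (h : U[X])
    (hi : ∀ i, ‖h.coeff i‖ ≤ 1) (c : U) (hc : ‖c‖ ≤ 1) (i : ℕ) :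
    ‖(h.comp (X + C c) - C c).coeff i‖ ≤ 1 := by
  have h1 : h ∈ lifts (ball U).subtype := by
    rw [lifts_iff_coeff_lifts]
    intro n
    exact ⟨⟨h.coeff n, hi n⟩, rfl⟩
  obtain ⟨h0, rfl⟩ := (mem_lifts _).1 h1
  have h2 : (h0.map (ball U).subtype).comp (X + C c) - C c =
      ((h0.comp (X + C (⟨c, hc⟩ : ball U)) - C (⟨c, hc⟩ : ball U))).map (ball U).subtype := by
    simp [Polynomial.map_comp]
  rw [h2, coeff_map]
  exact ((h0.comp (X + C (⟨c, hc⟩ : ball U)) - C (⟨c, hc⟩ : ball U)).coeff i).2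

/-- Points outside the unit ball escape. -/
lemma norm_eval_monic {U : Type} [NormedField U] [IsUltrametricDist U] (f : U[X]) (h1 : f.Monic)
    (hi : ∀ i, ‖f.coeff i‖ ≤ 1) (z : U) (hz : 1 < ‖z‖) : ‖f.eval z‖ = ‖z‖ ^ f.natDegree := by
  rw [eval_eq_sum_range, Finset.sum_range_succ, h1.coeff_natDegree, one_mul]
  have hlt : ‖∑ i ∈ Finset.range f.natDegree, f.coeff i * z ^ i‖ < ‖z ^ f.natDegree‖ := by
    rcases Nat.eq_zero_or_pos f.natDegree with h0 | h0
    · rw [h0]; simp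
    · obtain ⟨i, hi1, hi2⟩ := IsUltrametricDist.exists_norm_finset_sum_le
        (Finset.range f.natDegree) (fun i => f.coeff i * z ^ i)
      refine lt_of_le_of_lt hi2 ?_
      have hi3 : i ∈ Finset.range f.natDegree := hi1 ⟨0, Finset.mem_range.2 h0⟩
      rw [norm_mul, norm_pow, norm_pow]
      refine lt_of_le_of_lt (mul_le_of_le_one_left (by positivity) (hi i)) ?_
      exact pow_lt_pow_right₀ hz (Finset.mem_range.1 hi3)
  rw [IsUltrametricDist.norm_add_eq_max_of_norm_ne_norm hlt.ne, max_eq_right hlt.le, norm_pow]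

lemma crit_integral {U : Type} [NormedField U] [IsUltrametricDist U] (d : ℕ) (hd : 2 ≤ d)
    (f : U[X]) (h1 : f.Monic) (h2 : f.natDegree = d) (hi : ∀ i, ‖f.coeff i‖ ≤ 1) (hf : IsPCF f)
    (c : U) (hc : (derivative f).eval c = 0) : ‖c‖ ≤ 1 := by
  by_contra hcon
  rw [not_le] at hcon
  have hstep : ∀ n : ℕ, 1 < ‖(fun w : U => f.eval w)^[n] c‖ ∧
      ‖(fun w : U => f.eval w)^[n] c‖ < ‖(fun w : U => f.eval w)^[n + 1] c‖ := by
    have key : ∀ z : U, 1 < ‖z‖ → ‖z‖ < ‖f.eval z‖ := by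
      intro z hz
      rw [norm_eval_monic f h1 hi z hz, h2]
      calc ‖z‖ = ‖z‖ ^ 1 := (pow_one _).symm
        _ < ‖z‖ ^ d := pow_lt_pow_right₀ hz (by omega)
    intro n
    induction n with
    | zero => exact ⟨hcon, by simpa using key c hcon⟩
    | succ n ih =>
      have h3 := ih.1.trans ih.2
      refine ⟨h3, ?_⟩
      rw [Function.iterate_succ_apply' _ (n + 1)]
      exact key _ h3
  have hmono : StrictMono fun n : ℕ => ‖(fun w : U => f.eval w)^[n] c‖ :=
    strictMono_nat_of_lt_succ fun n => (hstep n).2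
  have hinj : Function.Injective fun n : ℕ => (fun w : U => f.eval w)^[n] c := by
    intro a b hab
    exact hmono.injective (congrArg norm hab)
  exact Set.infinite_range_of_injective hinj (hf c hc)

section

variable (p : ℕ) [hp : Fact p.Prime]

lemma low (d : ℕ) : Low (PadicAlgCl p) d ‖(d.factorial : PadicAlgCl p)‖ := by
  have hle : ∀ m : ℕ, ‖(m : PadicAlgCl p)‖ ≤ 1 := by
    intro m
    rw [norm_nat]
    exact_mod_cast Padic.norm_int_le_one (p := p) (m : ℤ)
  refine ⟨norm_pos_iff.2 (by exact_mod_cast Nat.factorial_ne_zero d), hle _, ?_⟩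
  intro m h1 h2
  obtain ⟨k, hk⟩ := Nat.dvd_factorial h1 h2
  rw [hk, Nat.cast_mul, norm_mul]
  exact mul_le_of_le_one_right (norm_nonneg _) (hle k)

/-- Integral postcritically finite polynomials satisfy uniform relations. -/
theorem key2 (hTAILW : TAILW) (hPER : PER) (hPIG : PIG) (hDSC : DSC) (hFLDW : FLDW) (d : ℕ)
    (hd : 2 ≤ d) (K : IntermediateField ℚ_[p] (PadicAlgCl p))
    (hK : FiniteDimensional ℚ_[p] K) :
    ∃ T N : ℕ, 1 ≤ N ∧ ∀ g : (PadicAlgCl p)[X], g.Monic → g.natDegree = d → g.coeff 1 = 0 →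
      (∀ i, ‖g.coeff i‖ ≤ 1) → IsPCF g →
      (∀ σ : PadicAlgCl p ≃ₐ[K] PadicAlgCl p,
        AffConj (g.map (σ.toRingEquiv : PadicAlgCl p →+* PadicAlgCl p)) g) →
      ∀ c : PadicAlgCl p, (derivative g).eval c = 0 →
        (fun z => g.eval z)^[T + N] c = (fun z => g.eval z)^[T] c := by
  set n := Module.finrank ℚ_[p] K * ((d ^ 2) ^ d * d ^ d) with hn
  have hn0 : n ≠ 0 := by
    have h1 : 0 < Module.finrank ℚ_[p] K := Module.finrank_pos
    have h2 : 0 < d := by omega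
    rw [hn]
    positivity
  set ρ : ℝ := ‖(p : PadicAlgCl p)‖ ^ ((n : ℝ)⁻¹) with hρ
  have hp0 := norm_p_pos p
  have hp1 := norm_p_lt p
  have hρn : ρ ^ n = ‖(p : PadicAlgCl p)‖ := Real.rpow_inv_natCast_pow hp0.le hn0
  have hρ0 : 0 < ρ := Real.rpow_pos_of_pos hp0 _
  have hρ1 : ρ < 1 := Real.rpow_lt_one hp0.le hp1 (by positivity)
  obtain ⟨E, hE⟩ := exists_pow_lt_of_lt_one
    (show 0 < ‖(d.factorial : PadicAlgCl p)‖ ^ (8 * d) / 2 from
      by have := (low p d).1; positivity) hρ1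
  refine ⟨p ^ (n * 1) + p ^ (n * 1) * (E + 1),
    (p ^ (n * 2)).factorial * (p ^ (n * 2)).factorial,
    Nat.mul_pos (Nat.factorial_pos _) (Nat.factorial_pos _), ?_⟩
  intro g h1 h2 h3 hi hg hσ c hc
  obtain ⟨L, hLf, hLn, hL1, hL2⟩ := hFLDW p _ d hd K hK le_rfl g h1 h2 h3 hσ
  have hA : ∀ a ∈ ints p L, ‖a‖ ≤ 1 := fun a ha => ha.2
  have hcoef : ∀ i, g.coeff i ∈ ints p L := fun i => ⟨hL1 i, hi i⟩
  have hcr : ∀ c : PadicAlgCl p, (derivative g).eval c = 0 → c ∈ ints p L :=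
    fun c hc => ⟨hL2 c hc, crit_integral d hd g h1 h2 hi hg c hc⟩
  have hP1 : Pig (ints p L) ρ (p ^ (n * 1)) := by
    intro q hq
    obtain ⟨i, j, hij, h⟩ := pig p hPIG L _ 1 hLf hLn q hq
    refine ⟨i, j, hij, h.trans ?_⟩
    rw [pow_one, ← hρn]
    exact pow_le_of_le_one hρ0.le hρ1.le hn0
  have hP2 := pig p hPIG L _ 2 hLf hLn
  have hT := hTAILW (PadicAlgCl p) d hd _ (low p d) g h1 h2 (ints p L) hA hcoef hcr hg ρ hρ0 hρ1
    (by
      intro a ha ha1
      refine le_of_not_gt fun hlt => ?_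
      have h4 := hDSC p L n hLf hLn a ha.1 ha1
      rw [← hρn] at h4
      exact absurd h4 (not_le.2 (pow_lt_pow_left₀ hlt hρ0.le hn0))) _ hP1 E hE.le c hc
  have hmem : ∀ m : ℕ, (fun z => g.eval z)^[m] c ∈ ints p L := by
    intro m
    induction m with
    | zero => exact hcr c hc
    | succ m ih =>
      rw [Function.iterate_succ_apply']
      change g.eval _ ∈ ints p L
      rw [eval_eq_sum]
      exact Subring.sum_mem _ fun i _ => Subring.mul_mem _ (hcoef i) (Subring.pow_mem _ ih i)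
  have hN := hPER p (PadicAlgCl p) (norm_p_lt p) (ints p L) hA (‖(p : PadicAlgCl p)‖ ^ 2)
    (by
      rw [pow_two]
      exact mul_lt_of_lt_one_left (norm_p_pos p) (norm_p_lt p)) _ hP2 g hcoef _ (hmem _) hT
  rw [Nat.add_comm, Function.iterate_add_apply]
  exact hN

/-- Galois invariant classes of integral postcritically finite polynomials. -/
theorem asm2 (hTAILW : TAILW) (hPER : PER) (hPIG : PIG) (hDSC : DSC) (hFLDW : FLDW)
    (hVART : VART) (d : ℕ) (hd : 2 ≤ d)
    (K : IntermediateField ℚ_[p] (PadicAlgCl p)) (hK : FiniteDimensional ℚ_[p] K) :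
    ∃ V : Set (PadicAlgCl p)[X], V.Finite ∧ ∀ f h : (PadicAlgCl p)[X], f.natDegree = d →
      IsPCF f → AffConj f h → h.Monic → h.natDegree = d → (∀ i, ‖h.coeff i‖ ≤ 1) →
      (∀ σ : PadicAlgCl p ≃ₐ[K] PadicAlgCl p,
        AffConj (f.map (σ.toRingEquiv : PadicAlgCl p →+* PadicAlgCl p)) f) →
      ∃ g ∈ V, g.natDegree = d ∧ AffConj f g := by
  obtain ⟨T, N, hN, hrel⟩ := key2 p hTAILW hPER hPIG hDSC hFLDW d hd K hK
  refine ⟨_, hVART p d hd T N hN, ?_⟩
  intro f h hf hfP hfh h1 h2 h3 hσ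
  have hP := isPCF_of_affConj hfh hfP
  obtain ⟨c, hc⟩ := IsAlgClosed.exists_root (derivative h) (by
    rw [degree_derivative_eq h (by omega), h2]
    exact_mod_cast (by omega : d - 1 ≠ 0))
  have hc' : (derivative h).eval c = 0 := hc
  have hc1 := crit_integral d hd h h1 h2 h3 hP c hc'
  obtain ⟨s1, s2, s3, s4⟩ := shift d hd h h1 h2 c hc'
  have hfg := affConj_trans hfh s4
  refine ⟨_, ⟨s1, s2, s3, ?_⟩, s2, hfg⟩
  exact hrel _ s1 s2 s3 (shift_integral h h3 c hc1) (isPCF_of_affConj hfg hfP) (fun σ =>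
    affConj_trans (affConj_map _ (affConj_symm hfg)) (affConj_trans (hσ σ) hfg))

/-- Postcritically finite polynomials of degree `d < p` or `d = p ^ k` have potentially good
reduction. -/
theorem good (hNORM : NORM) (hINT : INT) (hINTW : INTW) (d : ℕ) (hd : 2 ≤ d)
    (hdp : d < p ∨ ∃ k : ℕ, d = p ^ k) (f : (PadicAlgCl p)[X]) (hf : f.natDegree = d)
    (hfP : IsPCF f) :
    ∃ h : (PadicAlgCl p)[X], AffConj f h ∧ h.Monic ∧ h.natDegree = d ∧
      ∀ i, ‖h.coeff i‖ ≤ 1 := by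
  obtain ⟨h, h0, h1, h2, h3⟩ := hNORM (PadicAlgCl p) d hd f hf
  have hP := isPCF_of_affConj h0 hfP
  rcases hdp with hdp | ⟨k, hk⟩
  · exact ⟨h, h0, h1, h2, (hINT (PadicAlgCl p) d hd (tame p d hdp) h h1 h2 h3 hP).1⟩
  · obtain ⟨c, hc⟩ := IsAlgClosed.exists_root (derivative h) (by
      rw [degree_derivative_eq h (by omega), h2]
      exact_mod_cast (by omega : d - 1 ≠ 0))
    obtain ⟨s1, s2, s3, s4⟩ := shift d hd h h1 h2 c hc
    have hfg := affConj_trans h0 s4
    refine ⟨_, hfg, s1, s2, ?_⟩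
    have hk1 : 1 ≤ k := by
      rcases Nat.eq_zero_or_pos k with h | h
      · rw [h] at hk; simp at hk; omega
      · exact h
    exact hINTW (PadicAlgCl p) p k hp.out hk1 (norm_p_lt p) _ s1 (s2.trans hk) s3
      (isPCF_of_affConj hfg hfP)

end

end Pool.Agent.Y19.TP
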