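import Pool.Agent.Y19.TP.Asm2
import Pool.Agent.Y19.TP.Stm4

set_option autoImplicit false

/-!
# Assembly of project TP, last part
-/

namespace Pool.Agent.Y19.TP

open Polynomial

/-- Moving a fixed point to the origin. -/
lemma shift0 {U : Type} [Field U] (d : ℕ) (hd : 2 ≤ d) (h : U[X]) (h1 : h.Monic)
    (h2 : h.natDegree = d) (c : U) (hc : h.eval c = c) :
    (h.comp (X + C c) - C c).Monic ∧ (h.comp (X + C c) - C c).natDegree = d ∧
      (h.comp (X + C c) - C c).coeff 0 = 0 ∧ AffConj h (h.comp (X + C c) - C c) := by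
  have m1 : (h.comp (X + C c)).Monic := h1.comp_X_add_C c
  have n1 : (h.comp (X + C c)).natDegree = d := by
    rw [natDegree_comp, natDegree_X_add_C, mul_one, h2]
  have hdeg : (C c : U[X]).degree < (h.comp (X + C c)).degree := by
    refine lt_of_le_of_lt degree_C_le ?_
    rw [degree_eq_natDegree m1.ne_zero, n1]
    exact_mod_cast (by omega : 0 < d)
  refine ⟨m1.sub_of_left hdeg, ?_, ?_, ?_⟩
  · rw [natDegree_sub_C, n1]
  · rw [coeff_zero_eq_eval_zero]
    simp [eval_comp, hc]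
  · refine ⟨1, c, one_ne_zero, ?_⟩
    simp

section

variable (p : ℕ) [hp : Fact p.Prime]

/-- Postcritically finite polynomials of degree `d = c * p ^ s`, `c < p`, have potentially good
reduction. -/
theorem goodC (hNORM : NORM) (hINTC : INTC) (d : ℕ) (hd : 2 ≤ d)
    (hdp : ∃ c s : ℕ, c < p ∧ d = c * p ^ s) (f : (PadicAlgCl p)[X]) (hf : f.natDegree = d)
    (hfP : IsPCF f) :
    ∃ h : (PadicAlgCl p)[X], AffConj f h ∧ h.Monic ∧ h.natDegree = d ∧
      ∀ i, ‖h.coeff i‖ ≤ 1 := by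
  obtain ⟨h, h0, h1, h2, h3⟩ := hNORM (PadicAlgCl p) d hd f hf
  have hP := isPCF_of_affConj h0 hfP
  obtain ⟨c, s, hcp, hds⟩ := hdp
  have hc1 : 1 ≤ c := by
    rcases Nat.eq_zero_or_pos c with h | h
    · rw [h] at hds; omega
    · exact h
  have hX : (X : (PadicAlgCl p)[X]).degree < h.degree := by
    rw [degree_X, degree_eq_natDegree h1.ne_zero, h2]
    exact_mod_cast (by omega : 1 < d)
  obtain ⟨z, hz⟩ := IsAlgClosed.exists_root (h - X) (by
    rw [degree_sub_eq_left_of_degree_lt hX, degree_eq_natDegree h1.ne_zero, h2]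
    exact_mod_cast (by omega : d ≠ 0))
  have hz' : h.eval z = z := by
    have h4 : (h - X).eval z = 0 := hz
    rw [eval_sub, eval_X, sub_eq_zero] at h4
    exact h4
  obtain ⟨s1, s2, s3, s4⟩ := shift0 d hd h h1 h2 z hz'
  have hfg := affConj_trans h0 s4
  exact ⟨_, hfg, s1, s2, hINTC (PadicAlgCl p) p s c hp.out hc1 hcp (hds ▸ hd) (norm_p_lt p) _ s1
    (s2.trans hds) s3 (isPCF_of_affConj hfg hfP)⟩

end

end Pool.Agent.Y19.TP
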