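import Pool.Agent.Y19.TP.Stm

set_option autoImplicit false

/-!
# Project TP, third part: infinitely many classes of polynomials when `p ∣ d - 1`
-/

namespace Pool.Agent.Y19.TP

open Polynomial Function

/-- The polynomial `v z^(d-1) (d - (d-1) z)` with critical points `0 ↦ 0` and `1 ↦ v`. -/
noncomputable def fam (K : Type) [Field K] (d : ℕ) (v : K) : K[X] :=
  C v * X ^ (d - 1) * (C (d : K) - C ((d : K) - 1) * X)

/-- Job INFB (`p`-adic dynamics): parameters for which the critical value reaches `0` after exactly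
`n + 1` further steps. -/
def INFB : Prop := ∀ (p : ℕ) [Fact p.Prime] (d : ℕ), 3 ≤ d → p ∣ d - 1 → ∀ n : ℕ, 1 ≤ n →
  ∃ v : ℚ_[p], 1 < ‖v‖ ∧ (fun z : ℚ_[p] => (fam ℚ_[p] d v).eval z)^[n + 1] v = 0 ∧
    ∀ i : ℕ, i ≤ n → (fun z : ℚ_[p] => (fam ℚ_[p] d v).eval z)^[i] v ≠ 0

/-- Job INFA (algebra), from `INFB`. -/
def INFA : Prop := ∀ (p : ℕ) [Fact p.Prime] (d : ℕ), 3 ≤ d → p ∣ d - 1 →
  ∃ W : Set ℚ_[p], W.Infinite ∧
    (∀ v ∈ W, (fam (PadicAlgCl p) d (algebraMap ℚ_[p] (PadicAlgCl p) v)).natDegree = d ∧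
      IsPCF (fam (PadicAlgCl p) d (algebraMap ℚ_[p] (PadicAlgCl p) v))) ∧
    ∀ v ∈ W, ∀ v' ∈ W, AffConj (fam (PadicAlgCl p) d (algebraMap ℚ_[p] (PadicAlgCl p) v))
      (fam (PadicAlgCl p) d (algebraMap ℚ_[p] (PadicAlgCl p) v')) → v = v'

end Pool.Agent.Y19.TP
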