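import Pool.Agent.Y19.TP.Stm3

set_option autoImplicit false

/-!
# Project TP, fifth part: infinitely many classes over `ℚ_p` in degree `n k`, `k ≡ 1 mod p`
-/

namespace Pool.Agent.Y19.TP

open Polynomial Function

/-- The polynomial `v (z^(k-1) (k - (k-1) z))^n`. -/
noncomputable def famn (K : Type) [Field K] (n k : ℕ) (v : K) : K[X] :=
  C v * (fam K k 1) ^ n

/-- Dynamics. -/
def DYNN : Prop := ∀ (p : ℕ) [Fact p.Prime] (n k : ℕ), 3 ≤ k → p ∣ k - 1 → n ≠ 0 →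
  ‖((k - 1 : ℕ) : ℚ_[p])‖ ^ (k - 1) < ‖(n : ℚ_[p])‖ ^ 2 →
  ∀ N : ℕ, 1 ≤ N →
  ∃ v : ℚ_[p], 1 < ‖v‖ ∧ (fun z : ℚ_[p] => (famn ℚ_[p] n k v).eval z)^[N + 1] v = 0 ∧
    ∀ i : ℕ, i ≤ N → (fun z : ℚ_[p] => (famn ℚ_[p] n k v).eval z)^[i] v ≠ 0

/-- Algebra. -/
def ALGN : Prop := ∀ (p : ℕ) [Fact p.Prime] (n k : ℕ), 3 ≤ k → p ∣ k - 1 → n ≠ 0 →
  ‖((k - 1 : ℕ) : ℚ_[p])‖ ^ (k - 1) < ‖(n : ℚ_[p])‖ ^ 2 →
  ∃ W : Set ℚ_[p], W.Infinite ∧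
    (∀ v ∈ W, (famn (PadicAlgCl p) n k (algebraMap ℚ_[p] (PadicAlgCl p) v)).natDegree = n * k ∧
      IsPCF (famn (PadicAlgCl p) n k (algebraMap ℚ_[p] (PadicAlgCl p) v))) ∧
    ∀ v ∈ W, ∀ v' ∈ W, AffConj (famn (PadicAlgCl p) n k (algebraMap ℚ_[p] (PadicAlgCl p) v))
      (famn (PadicAlgCl p) n k (algebraMap ℚ_[p] (PadicAlgCl p) v')) → v = v'

end Pool.Agent.Y19.TP
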